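import Pool.Agent.H334PI.Om
import Pool.Agent.TH976.Scal

/-!
The covariant functions, and the main estimates.
-/

set_option autoImplicit false

namespace H334PI
open Finset H974 Pool.Agent.H160R2.CV H362P TH976
open Pool.Agent.H160R2.CV.Quad Pool.Agent.H389R2.CD

/-- the function of one point and an interval -/
noncomputable def HI (s t : ℝ) (z : ℂ) : ℝ := z.im ^ (-(5 / 48) : ℝ) * om s t z ^ (1 / 3 : ℝ)

/-- the function of two points and an interval -/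
noncomputable def PF (s t : ℝ) (z w : ℂ) : ℝ := Real.sqrt (HI s t z * HI s t w / gH z w)

/-- the function of `k` points and an interval -/
noncomputable def FI (s t : ℝ) (z : ℕ → ℂ) (k : ℕ) : ℝ :=
  kFun gH z k * min 1 (⨆ p : {p : Fin k × Fin k // p.1 < p.2}, PF s t (z p.1.1) (z p.1.2))

theorem bd_eq {n : ℕ} (hn : 1 ≤ n) : bd n = (n : ℝ) ^ (-(1 / 3) : ℝ) := by
  have h1 : (1 : ℝ) ≤ n := by exact_mod_cast hn
  have h0 : (0 : ℝ) < n := by linarith
  unfold bd eH EH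
  have e1 : min 1 (((((0 : ℤ), (1 : ℤ)) : Vtx).2 : ℝ) / n) = (n : ℝ)⁻¹ := by
    show min 1 (((1 : ℤ) : ℝ) / n) = _
    rw [Int.cast_one, one_div, min_eq_right (inv_le_one_of_one_le₀ h1)]
  rw [e1, Real.inv_rpow h0.le, ← Real.rpow_neg h0.le, ← Real.rpow_add h0]
  norm_num

theorem hf_eq {l S : ℕ} {x : Vtx} (hl : 1 ≤ l) (hx : x ∈ DH) (hS : 1 ≤ S) (hxS : x.2 ≤ S) :
    hf l x S = (x.2 : ℝ) ^ (-(5 / 48) : ℝ) *
      ((x.2 : ℝ) * min (l : ℝ) S / (S : ℝ) ^ 2) ^ (1 / 3 : ℝ) := by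
  have hx' : (1 : ℤ) ≤ x.2 := hx
  have y0 : (0 : ℝ) < x.2 := by
    have : (1 : ℝ) ≤ x.2 := by exact_mod_cast hx'
    linarith
  have S0 : (0 : ℝ) < S := by exact_mod_cast hS
  have l0 : (0 : ℝ) < l := by exact_mod_cast hl
  have yS : (x.2 : ℝ) ≤ S := by exact_mod_cast hxS
  have m0 : (0 : ℝ) < min (l : ℝ) S := lt_min l0 S0
  unfold hf Nf
  rw [bd_eq hS, bd_eq (show 1 ≤ min l S by omega)]
  unfold eH EH
  rw [min_eq_right ((div_le_one S0).mpr yS)]
  push_cast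
  rw [Real.div_rpow y0.le S0.le, Real.div_rpow (by positivity) (by positivity),
    Real.mul_rpow y0.le m0.le, ← Real.rpow_natCast (S : ℝ) 2, ← Real.rpow_mul S0.le]
  generalize (x.2 : ℝ) = y at *
  generalize min (l : ℝ) S = m at *
  generalize (S : ℝ) = s at *
  simp only [Real.rpow_def_of_pos y0, Real.rpow_def_of_pos m0, Real.rpow_def_of_pos S0,
    ← Real.exp_add, ← Real.exp_sub]
  congr 1
  push_cast
  ring

theorem hf_cmp {k : ℝ} (h : Reg DH eH k) {p : ℤ} {l : ℕ} (hl : 1 ≤ l) {x : Vtx} (hx : x ∈ DH)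
    {a : ℕ} (ha : Dst {x} (Iv p l) a) : Cmp (k ^ 6 * 24) (hf l x (max a 1))
      (HI ((p : ℝ) - 1 / 2) ((p : ℝ) + l - 1 / 2) (cx x)) := by
  have hx' : (1 : ℤ) ≤ x.2 := hx
  obtain ⟨S, hS⟩ : ∃ S : ℕ, S = max a x.2.toNat := ⟨_, rfl⟩
  have c1 := om_cmp hl hx ha hS
  have ha2 : x.2 ≤ a + 1 := by
    obtain ⟨⟨x', hx1, j, hj, haj⟩, -⟩ := ha
    rw [Finset.mem_singleton] at hx1
    subst hx1
    have hj' := mem_Iv.mp hj
    unfold sd at haj
    omega
  have c2 := Nf_near h hl (a := max a 1) (b := S) (by omega) (by omega) (by omega) (by omega)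
  have c3 := h.near2 hx (n := max a 1) (m := S) (by omega) (by omega) (by omega) (by omega)
  have e1 := hf_eq hl hx (S := S) (by omega) (by omega)
  have y0 : (0 : ℝ) < x.2 := by
    have : (1 : ℝ) ≤ x.2 := by exact_mod_cast hx'
    linarith
  have c4 := (Cmp.refl (Real.rpow_pos_of_pos y0 (-(5 / 48) : ℝ))).mul
    (c1.symm.rpow (a := 1 / 3) (by norm_num) (by norm_num))
  rw [← e1] at c4
  have c5 : Cmp (k ^ 4 * (k * k)) (hf l x (max a 1)) (hf l x S) := c2.mul c3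
  have c6 := c5.trans c4
  exact c6.weaken (le_of_eq (by ring))

theorem pf_cmp {k : ℝ} (h : Reg DH eH k) {p : ℤ} {l : ℕ} (hl : 1 ≤ l) {x y : Vtx} (hx : x ∈ DH)
    (hy : y ∈ DH) (hxy : x ≠ y) {a b : ℕ} (ha : Dst {x} (Iv p l) a) (hb : Dst {y} (Iv p l) b) :
    Cmp (k ^ 12 * 3456) (pf l x y (max a 1) (max b 1))
      (PF ((p : ℝ) - 1 / 2) ((p : ℝ) + l - 1 / 2) (cx x) (cx y)) := by
  have c1 := ((hf_cmp h hl hx ha).mul (hf_cmp h hl hy hb)).div (two_H hx hy hxy)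
  unfold pf PF
  rw [Real.sqrt_eq_rpow, Real.sqrt_eq_rpow]
  exact (c1.rpow (by norm_num) (by norm_num)).weaken (le_of_eq (by ring))

/-- one vertex -/
theorem main_one (hA : ArS) : ∃ C : ℝ, 1 ≤ C ∧ ∀ (p : ℤ) (l : ℕ) (x : Vtx), 1 ≤ l → x ∈ DH →
    Cmp C (PD DH (W {x} (Iv p l))) (HI ((p : ℝ) - 1 / 2) ((p : ℝ) + l - 1 / 2) (cx x)) := by
  obtain ⟨K, hK, h⟩ := T1' hA
  obtain ⟨k, hr⟩ := reg_H hA
  have hk := hr.hk
  refine ⟨K * (k ^ 6 * 24), Cmp.one_le_mul' hK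
    (Cmp.one_le_mul' (one_le_pow₀ hk) (by norm_num)), ?_⟩
  intro p l x hl hx
  have t := h p l {x} x (dI p l x) 0 hl (by
    intro u hu
    rw [Finset.mem_singleton] at hu
    rw [hu]
    exact hx) (Finset.mem_singleton_self x) (dI_spec hl x) (diam_single x)
  have e1 : Mf l x (dI p l x) 0 = hf l x (max (dI p l x) 1) := by
    unfold Mf hf
    have e2 : max 0 1 = 1 := rfl
    rw [e2, eH_one hx, div_one]
    congr 2
    omega
  rw [PD_singleton, mul_one, e1] at t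
  exact t.trans (hf_cmp hr hl hx (dI_spec hl x))

/-- `k` vertices: the conditional probability -/
theorem main_ratio (hA : ArS) : ∃ C : ℝ, 1 ≤ C ∧ ∀ (p : ℤ) (l k : ℕ) (x : ℕ → Vtx), 1 ≤ l →
    2 ≤ k → (∀ i < k, x i ∈ DH) → (∀ i < k, ∀ j < k, i ≠ j → x i ≠ x j) →
    Cmp C (PD DH (W ((range k).image x) (Iv p l)))
      (min 1 (⨆ q : {p : Fin k × Fin k // p.1 < p.2}, PF ((p : ℝ) - 1 / 2) ((p : ℝ) + l - 1 / 2)
        (cx (x q.1.1)) (cx (x q.1.2))) * PD DH (Cn ((range k).image x))) := by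
  obtain ⟨K, hK, h⟩ := factorI hA
  obtain ⟨k', hr⟩ := reg_H hA
  obtain ⟨c, g⟩ := good_H hA
  have hk' := hr.hk
  set K2 : ℝ := k' ^ 12 * 3456 with hK2
  have hK2' : 1 ≤ K2 := Cmp.one_le_mul' (one_le_pow₀ hk') (by norm_num)
  have C1 : 1 ≤ K * K2 := Cmp.one_le_mul' hK hK2'
  refine ⟨K * K2, C1, ?_⟩
  intro p l k x hl hk hx hd
  set X := (range k).image x with hX
  have hXD : ∀ u ∈ X, u ∈ DH := by
    intro u hu
    obtain ⟨i, hi, rfl⟩ := Finset.mem_image.mp hu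
    exact hx i (Finset.mem_range.mp hi)
  have hinj : Set.InjOn x ↑(range k) := by
    intro i hi j hj hij
    by_contra hne
    rw [Finset.mem_coe, Finset.mem_range] at hi hj
    exact hd i hi j hj hne hij
  have hcard : X.card = k := by
    rw [hX, Finset.card_image_of_injOn hinj, Finset.card_range]
  obtain ⟨h1, u, hu, v, hv, huv, h2⟩ := h p l X hl hXD (by omega)
  have pX := g.pos hXD ⟨u, hu⟩
  have hne := pair_nonempty hk
  set f : {p : Fin k × Fin k // p.1 < p.2} → ℝ := fun q => pf l (x q.1.1) (x q.1.2)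
    (max (dI p l (x q.1.1)) 1) (max (dI p l (x q.1.2)) 1) with hf
  have bf : BddAbove (Set.range f) := (Set.finite_range _).bddAbove
  have s1 : Cmp K2 (⨆ q, f q) (⨆ q : {p : Fin k × Fin k // p.1 < p.2},
      PF ((p : ℝ) - 1 / 2) ((p : ℝ) + l - 1 / 2) (cx (x q.1.1)) (cx (x q.1.2))) := by
    apply Cmp.iSup'
    rintro ⟨⟨⟨i, hi⟩, ⟨j, hj⟩⟩, hij⟩
    have hij' : i < j := hij
    exact pf_cmp hr hl (hx i hi) (hx j hj) (hd i hi j hj (by omega)) (dI_spec hl _) (dI_spec hl _)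
  have s2 := ((Cmp.refl one_pos).weaken hK2').min' s1
  have f0 : 0 < min 1 (⨆ q, f q) := lt_min one_pos s1.hx
  have W0 : 0 < PD DH (W X (Iv p l)) := by
    obtain ⟨K1, hK1, T⟩ := T1' hA
    obtain ⟨a, ha⟩ := exists_dst (p := p) hl ⟨u, hu⟩
    obtain ⟨d, hd⟩ := exists_diam ⟨u, hu⟩
    exact (T p l X u a d hl hXD hu ha hd).hx
  have s3 : Cmp K (PD DH (W X (Iv p l))) (min 1 (⨆ q, f q) * PD DH (Cn X)) := by
    refine ⟨hK, W0, mul_pos f0 pX, ?_, ?_⟩
    · refine h2.trans ?_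
      apply mul_le_mul_of_nonneg_left _ (by linarith)
      apply mul_le_mul_of_nonneg_right _ pX.le
      apply min_le_min le_rfl
      obtain ⟨i, hi, rfl⟩ := Finset.mem_image.mp hu
      obtain ⟨j, hj, rfl⟩ := Finset.mem_image.mp hv
      rw [Finset.mem_range] at hi hj
      rcases lt_trichotomy i j with hij | hij | hij
      · exact le_ciSup bf ⟨(⟨i, hi⟩, ⟨j, hj⟩), hij⟩
      · exact absurd (by rw [hij]) huv
      · rw [pf_symm]
        exact le_ciSup bf ⟨(⟨j, hj⟩, ⟨i, hi⟩), hij⟩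
    · have s4 : min 1 (⨆ q, f q) ≤ K * PD DH (W X (Iv p l)) / PD DH (Cn X) := by
        rcases le_or_gt 1 (K * PD DH (W X (Iv p l)) / PD DH (Cn X)) with h5 | h5
        · exact (min_le_left _ _).trans h5
        · refine (min_le_right _ _).trans ?_
          apply ciSup_le
          rintro ⟨⟨⟨i, hi⟩, ⟨j, hj⟩⟩, hij⟩
          have hij' : i < j := hij
          have h6 := h1 (x i) (Finset.mem_image_of_mem _ (Finset.mem_range.mpr hi)) (x j)
            (Finset.mem_image_of_mem _ (Finset.mem_range.mpr hj)) (hd i hi j hj (by omega))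
          have h7 : min 1 (pf l (x i) (x j) (max (dI p l (x i)) 1) (max (dI p l (x j)) 1)) ≤
              K * PD DH (W X (Iv p l)) / PD DH (Cn X) := by
            rw [le_div_iff₀ pX]
            exact h6
          rcases min_le_iff.mp h7 with h8 | h8
          · linarith
          · exact h8
      rw [le_div_iff₀ pX] at s4
      exact s4
  have s5 := s3.trans (s2.mul (Cmp.refl pX))
  exact s5.weaken (le_of_eq (by ring))

/-- `k` vertices -/
theorem main_k (hA : ArS) : ∃ C : ℝ, 1 ≤ C ∧ ∀ (p : ℤ) (l k : ℕ) (x : ℕ → Vtx), 1 ≤ l → 2 ≤ k →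
    (∀ i < k, x i ∈ DH) → (∀ i < k, ∀ j < k, i ≠ j → x i ≠ x j) →
    Cmp (C ^ k) (PD DH (W ((range k).image x) (Iv p l)))
      (FI ((p : ℝ) - 1 / 2) ((p : ℝ) + l - 1 / 2) (fun i => cx (x i)) k) := by
  obtain ⟨K, hK, h⟩ := main_ratio hA
  obtain ⟨C0, hC0, h0⟩ := kpoint_H hA
  refine ⟨C0 * K, Cmp.one_le_mul' hC0 hK, ?_⟩
  intro p l k x hl hk hx hd
  have t := h p l k x hl hk hx hd
  have t0 := t.hy
  have hm : 0 < min 1 (⨆ q : {p : Fin k × Fin k // p.1 < p.2}, PF ((p : ℝ) - 1 / 2)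
      ((p : ℝ) + l - 1 / 2) (cx (x q.1.1)) (cx (x q.1.2))) :=
    pos_of_mul_pos_left t0 (PD_nonneg _ _)
  have s5 := t.trans ((Cmp.refl hm).mul (h0 k x hk hx hd))
  have e1 : FI ((p : ℝ) - 1 / 2) ((p : ℝ) + l - 1 / 2) (fun i => cx (x i)) k =
      min 1 (⨆ q : {p : Fin k × Fin k // p.1 < p.2}, PF ((p : ℝ) - 1 / 2) ((p : ℝ) + l - 1 / 2)
        (cx (x q.1.1)) (cx (x q.1.2))) * kFun gH (fun i => cx (x i)) k := mul_comm _ _
  rw [e1]
  refine s5.weaken ?_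
  have hp0 : 0 ≤ C0 ^ k := by positivity
  calc K * (1 * C0 ^ k) = C0 ^ k * K ^ 1 := by ring
    _ ≤ C0 ^ k * K ^ k := by
        apply mul_le_mul_of_nonneg_left _ hp0
        exact pow_le_pow_right₀ hK (by omega)
    _ = _ := (mul_pow _ _ _).symm

end H334PI
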