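import Pool.Agent.TH976.Cov

/-!
Critical bond percolation on the square lattice, in a quadrant: connections between a finite set of
vertices and a set of vertices which is contained in, or contains, a boundary interval. Finite volume
inequalities.
-/

set_option autoImplicit false

namespace H334PI
open Finset H974 Pool.Agent.H160R2.CV H362P TH976
open Pool.Agent.H160R2.CV.Quad
open H973 (dlt dlt_pos dlt_le rswL)

/-- the circuit around a vertex of the bottom side contains a vertex of the bottom side -/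
theorem CQ_meetB {c : Vtx} (hc : 0 ≤ c.1) (hc0 : c.2 = 0) {R : ℕ} (hR : 1 ≤ R) {F : Finset Edg} (hF : InQ F)
    (h : CQ c R F) : ∃ t : ℤ, c.1 + R ≤ t ∧ t ≤ c.1 + 3 * R ∧ ∀ u v : Vtx, InV u → sd u c ≤ R →
      3 * R ≤ sd v c → Reach (↑F) u v → Reach (↑F) u (t, 0) := by
  obtain ⟨⟨⟨xr, xr', hxr, hxr', hr⟩, ⟨yt, yt', hyt, hyt', ht⟩⟩, hl, -⟩ := h
  obtain ⟨c1, c2⟩ := c
  simp only at hc hc0 hr ht hl hxr hxr' hyt hyt'
  subst hc0
  have e0 : max 0 ((0 : ℤ) - 3 * (R : ℤ)) = 0 := by omega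
  rw [e0] at hr
  simp only [e0] at hl
  have hR' : (1 : ℤ) ≤ R := by exact_mod_cast hR
  have hr' := hr.mono (Set.inter_subset_inter_right (↑F : Set Edg)
    (by exact_mod_cast TBE_subset_RE :
      (↑(TBE (c1 + R) (c1 + 3 * R) 0 (0 + 3 * R)) : Set Edg) ⊆ _))
  have ht' := ht.mono (Set.inter_subset_inter_right (↑F : Set Edg)
    (by exact_mod_cast LRE_subset_RE :
      (↑(LRE (max 0 (c1 - 3 * R)) (c1 + 3 * R) (0 + R) (0 + 3 * R)) : Set Edg) ⊆ _))
  -- top and right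
  have mTR : Reach (↑F ∩ ↑(RE (max 0 (c1 - 3 * R)) (c1 + 3 * R) 0
      (0 + 3 * R))) (max 0 (c1 - 3 * (R : ℤ)), yt) (xr, 0) :=
    cross_meet (a := c1 + R) (b := c1 + 3 * R) (c := 0 + R) (d := 0 + 3 * R) (by omega)
      (by omega) le_rfl (by omega) (by omega) le_rfl ht' (by simp only; omega)
      (by simp only; omega) hr' (by simp only; omega) (by simp only; omega)
  refine ⟨xr, hxr.1, hxr.2, ?_⟩
  intro u v hu huc hvc huv
  unfold sd at huc hvc
  simp only at huc hvc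
  obtain ⟨w, h1, h2, h3⟩ := first_exit (a := c1 - 3 * R) (b := c1 + 3 * R) (c := 0 - 3 * R)
    (d := 0 + 3 * R) (by unfold inR; omega) huv (by omega)
  have hB : (↑F : Set Edg) ∩ ↑(RE (c1 - 3 * R) (c1 + 3 * R) (0 - 3 * R) (0 + 3 * R)) ⊆
      ↑F ∩ ↑(RE (max 0 (c1 - 3 * R)) (c1 + 3 * R) 0 (0 + 3 * R)) := by
    rintro ⟨x, y, _ | _⟩ ⟨k1, k2⟩
    · refine ⟨k1, ?_⟩
      have := hF _ (Finset.mem_coe.mp k1)
      simp only at this
      rw [Finset.mem_coe, mem_RE_false] at k2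
      rw [Finset.mem_coe, mem_RE_false]
      omega
    · refine ⟨k1, ?_⟩
      have := hF _ (Finset.mem_coe.mp k1)
      simp only at this
      rw [Finset.mem_coe, mem_RE_true] at k2
      rw [Finset.mem_coe, mem_RE_true]
      omega
  have hP := h3.mono hB
  have hw : InV w := inV_reach hF hu (h3.mono Set.inter_subset_left)
  unfold InV at hw
  unfold inR at h1
  rcases h2 with h2 | h2 | h2 | h2
  · -- left
    have h3R : 3 * (R : ℤ) ≤ c1 := by omega
    obtain ⟨xl, xl', hxl, hxl', hl1⟩ := hl h3R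
    have hl' := hl1.mono (Set.inter_subset_inter_right (↑F : Set Edg)
      (by exact_mod_cast TBE_subset_RE :
        (↑(TBE (c1 - 3 * R) (c1 - R) 0 (0 + 3 * R)) : Set Edg) ⊆ _))
    have mTL : Reach (↑F ∩ ↑(RE (max 0 (c1 - 3 * R)) (c1 + 3 * R) 0
        (0 + 3 * R))) (max 0 (c1 - 3 * (R : ℤ)), yt) (xl, 0) :=
      cross_meet (a := c1 - 3 * R) (b := c1 - R) (c := 0 + R) (d := 0 + 3 * R) (by omega)
        (by omega) (by omega) (by omega) (by omega) le_rfl ht' (by simp only; omega)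
        (by simp only; omega) hl' (by simp only; omega) (by simp only; omega)
    have m : Reach (↑F ∩ ↑(RE (max 0 (c1 - 3 * R)) (c1 + 3 * R) 0
        (0 + 3 * R))) w (xl, 0) :=
      cross_meet (a := c1 - 3 * R) (b := c1 - R) (c := 0) (d := 0 + 3 * R)
        (by omega) (by omega) (by omega) le_rfl (by omega) le_rfl hP.symm (by omega)
        (by omega) hl' (by simp only; omega) (by simp only; omega)
    exact (hP.trans (m.trans (mTL.symm.trans mTR))).mono Set.inter_subset_left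
  · -- right
    exact (cross_meet (a := c1 + R) (b := c1 + 3 * R) (c := 0)
      (d := 0 + 3 * R) (by omega) (by omega) le_rfl le_rfl (by omega) le_rfl hP (by omega)
      h2.ge hr' (by simp only; omega) (by simp only; omega)).mono Set.inter_subset_left
  · -- bottom
    omega
  · -- top
    have m : Reach (↑F ∩ ↑(RE (max 0 (c1 - 3 * R)) (c1 + 3 * R) 0
        (0 + 3 * R))) (max 0 (c1 - 3 * (R : ℤ)), yt) u :=
      cross_meet (a := max 0 (c1 - 3 * R)) (b := c1 + 3 * R) (c := 0 + R) (d := 0 + 3 * R)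
        le_rfl (by omega) le_rfl (by omega) (by omega) le_rfl ht' (by simp only; omega)
        (by simp only; omega) hP (by omega) (by omega)
    exact (m.symm.trans mTR).mono Set.inter_subset_left

/-- all the vertices of `X` are connected, and connected to a vertex of `J` -/
def W (X J : Finset Vtx) (F : Set Edg) : Prop := Cn X F ∧ ∃ y ∈ X, ∃ i ∈ J, Reach F y i

theorem W.mono {X J : Finset Vtx} {F G : Set Edg} (h : F ⊆ G) (hF : W X J F) : W X J G := by
  obtain ⟨h1, y, hy, i, hi, h2⟩ := hF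
  exact ⟨h1.mono h, y, hy, i, hi, h2.mono h⟩

theorem W_incr (S : Finset Edg) (X J : Finset Vtx) : IncrE S (fun F => W X J (↑F)) :=
  fun _ _ h _ hF => W.mono (by exact_mod_cast h) hF

/-- from a vertex of the boundary to an interval around it -/
theorem low {X J : Finset Vtx} {q y : Vtx} (hq1 : 0 ≤ q.1) (hq2 : q.2 = 0) {R : ℕ} (hR : 1 ≤ R) (hy : y ∈ X)
    (hX : ∀ u ∈ X, 3 * R ≤ sd u q) (hJ : ∀ t : ℤ, q.1 + R ≤ t → t ≤ q.1 + 3 * R → (t, (0 : ℤ)) ∈ J)
    {S : Finset Edg} (hSQ : InQ S) (hS : qb q (3 * R) ⊆ S) :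
    k4 * Pr P S (fun F => Cn (insert q X) (↑F)) ≤ aq q R * Pr P S (fun F => W X J (↑F)) := by
  classical
  have hq : InV q := ⟨hq1, by omega⟩
  set B := qb q R with hB
  set S2 := S \ B with hS2
  set E : Finset Edg → Prop := fun F => Cn X (↑(F ∩ S2) ∪ ↑B) ∧ ∃ y ∈ X, Reach (↑(F ∩ S2) ∪ ↑B) y q with hE
  have hEi : IncA E := by
    intro F G h hF
    have hm : (↑(F ∩ S2) : Set Edg) ∪ ↑B ⊆ ↑(G ∩ S2) ∪ ↑B := by
      refine Set.union_subset_union_left _ ?_
      exact_mod_cast Finset.inter_subset_inter_right h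
    obtain ⟨h1, y, hy, h2⟩ := hF
    exact ⟨Cn.mono hm h1, y, hy, h2.mono hm⟩
  have hEl : LocE S2 E := by
    intro F
    rw [hE]
    simp only [Finset.inter_assoc, Finset.inter_self]
  have hd : Disjoint B S2 := by rw [hS2]; exact Finset.disjoint_sdiff
  have s1 : Pr P S (fun F => Cn (insert q X) (↑F)) ≤ Pr P S (fun F => ArL q R F ∧ E F) := by
    apply Pr_mono okP
    intro F hFS hF
    have hm : (↑F : Set Edg) ⊆ ↑(F ∩ S2) ∪ ↑B := by
      intro e he
      by_cases h1 : e ∈ B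
      · exact Or.inr (by exact_mod_cast h1)
      · left
        rw [Finset.mem_coe, Finset.mem_inter, hS2, Finset.mem_sdiff]
        exact ⟨Finset.mem_coe.mp he, hFS (Finset.mem_coe.mp he), h1⟩
    refine ⟨Ar_loc (hSQ.mono hFS) (m := 3 * R) (by omega) ⟨y, hX y hy,
      hF q (Finset.mem_insert_self _ _) y (Finset.mem_insert_of_mem hy)⟩, ?_, y, hy, ?_⟩
    · intro u hu v hv
      exact (hF u (Finset.mem_insert_of_mem hu) v (Finset.mem_insert_of_mem hv)).mono hm
    · exact (hF y (Finset.mem_insert_of_mem hy) q (Finset.mem_insert_self _ _)).mono hm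
  have s2 := indep2 S B S2 hd (ArL_inc q R) hEi (ArL_loc q R) hEl
  rw [pr_ArL] at s2
  have s4 : Pr P S2 E ≤ Pr P S E :=
    Pr_mono_set okP Finset.sdiff_subset (fun F G h _ => hEi F G h)
  have hcirc : k4 ≤ Pr P S (CQ q R) := pr_CQ' hq hR hS
  have s5 : Pr P S E * Pr P S (CQ q R) ≤ Pr P S (fun F => W X J (↑F)) := by
    refine (Pr_harris okP (fun F G h _ => hEi F G h) (CQ_incr S q R)).trans ?_
    apply Pr_mono okP
    rintro F hFS ⟨⟨h1, y', hy', h1'⟩, h2⟩
    have hsub : (↑(F ∩ S2) : Set Edg) ⊆ ↑F := by exact_mod_cast Finset.inter_subset_left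
    have hends : ∀ e ∈ (↑B : Set Edg), (InV (src e) ∧ sd (src e) q ≤ R) ∧ (InV (tgt e) ∧ sd (tgt e) q ≤ R) := by
      intro e he
      exact qb_ends (Finset.mem_coe.mp he)
    refine ⟨?_, y', hy', ?_⟩
    · intro u hu v hv
      refine unwireQ_in hq hR (hSQ.mono hFS) h2 (A := ↑B) hends (hX u hu) (hX v hv) ?_
      exact (h1 u hu v hv).mono (Set.union_subset_union_left _ hsub)
    · obtain ⟨t, ht1, ht2, hz⟩ := CQ_meetB hq1 hq2 hR (hSQ.mono hFS) h2
      refine ⟨(t, 0), hJ t ht1 ht2, ?_⟩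
      rcases hit_or (T := fun w => InV w ∧ sd w q ≤ R) hends h1' with h3 | ⟨w, h3, h4⟩
      · have h5 := h3.mono hsub
        exact h5.trans (hz q y' hq (by rw [sd_self]; omega) (hX y' hy') h5.symm)
      · have h5 := h4.mono hsub
        exact h5.trans (hz w y' h3.1 h3.2 (hX y' hy') h5.symm)
  have p0 : 0 ≤ Pr P S E := Pr_nonneg okP _ _
  have p1 : 0 ≤ aq q R := aq_nonneg q R
  have s6 : k4 * Pr P S E ≤ Pr P S (fun F => W X J (↑F)) := by
    rw [mul_comm]
    exact (mul_le_mul_of_nonneg_left hcirc p0).trans s5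
  calc k4 * Pr P S (fun F => Cn (insert q X) (↑F)) ≤ k4 * (aq q R * Pr P S2 E) :=
        mul_le_mul_of_nonneg_left (s1.trans s2) k4_pos.le
    _ = aq q R * (k4 * Pr P S2 E) := by ring
    _ ≤ aq q R * (k4 * Pr P S E) := by
        apply mul_le_mul_of_nonneg_left _ p1
        exact mul_le_mul_of_nonneg_left s4 k4_pos.le
    _ ≤ _ := mul_le_mul_of_nonneg_left s6 p1

/-- from a small set to a vertex close to it -/
theorem up {X J : Finset Vtx} {q : Vtx} (hq : InV q) {R : ℕ} (hR : 1 ≤ R)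
    (hX : ∀ u ∈ X, 3 * R ≤ sd u q) (hJ : ∀ i ∈ J, InV i ∧ sd i q ≤ R)
    {S : Finset Edg} (hSQ : InQ S) (hS : qb q (3 * R) ⊆ S) :
    k4 * aq q (3 * R) * Pr P S (fun F => W X J (↑F)) ≤ Pr P S (fun F => Cn (insert q X) (↑F)) := by
  have h1 : k4 ≤ Pr P S (CQ q R) := pr_CQ' hq hR hS
  have h2 : aq q (3 * R) ≤ Pr P S (Ar q (3 * R)) := pr_Ar_ge hS
  have p0 : 0 ≤ Pr P S (fun F => W X J (↑F)) := Pr_nonneg okP _ _
  have i1 := fkg (CQ_incr S q R) (Ar_incr S q (3 * R)) (aq_nonneg _ _) h1 h2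
  have i2 := fkg (incr_and (CQ_incr S q R) (Ar_incr S q (3 * R))) (W_incr S X J) p0 i1 le_rfl
  refine i2.trans ?_
  apply Pr_mono okP
  rintro F hFS ⟨⟨k1, v, hv, hqv⟩, k5, y, hy, i, hi, hyi⟩
  obtain ⟨z, hz⟩ := CQ_meet hq hR (hSQ.mono hFS) k1
  have m1 := hz q v hq (by rw [sd_self]; omega) hv hqv
  have m2 := hz i y (hJ i hi).1 (hJ i hi).2 (hX y hy) hyi.symm
  exact Cn_insert k5 hy ((m1.trans m2.symm).trans hyi.symm)

/-- from a far set to a vertex at an intermediate distance -/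
theorem far {X J : Finset Vtx} {y w : Vtx} (hXV : ∀ u ∈ X, InV u) (hyV : InV y) (hw : InV w) {R : ℕ} (hR : 1 ≤ R)
    (hX : ∀ u ∈ X, sd u y ≤ R) (hwy : sd w y ≤ R) (hJ : ∀ i ∈ J, 3 * R ≤ sd i y)
    {S : Finset Edg} (hSQ : InQ S) (hS : qb y (3 * R) ⊆ S) (hS' : qb w (4 * R) ⊆ S) :
    k4 * aq w (4 * R) * Pr P S (fun F => W X J (↑F)) ≤ Pr P S (fun F => Cn (insert w X) (↑F)) := by
  have h1 : k4 ≤ Pr P S (CQ y R) := pr_CQ' hyV hR hS
  have h2 : aq w (4 * R) ≤ Pr P S (Ar w (4 * R)) := pr_Ar_ge hS'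
  have p0 : 0 ≤ Pr P S (fun F => W X J (↑F)) := Pr_nonneg okP _ _
  have i1 := fkg (CQ_incr S y R) (Ar_incr S w (4 * R)) (aq_nonneg _ _) h1 h2
  have i2 := fkg (incr_and (CQ_incr S y R) (Ar_incr S w (4 * R))) (W_incr S X J) p0 i1 le_rfl
  refine i2.trans ?_
  apply Pr_mono okP
  rintro F hFS ⟨⟨k1, v, hv, hwv⟩, k5, u, hu, i, hi, hui⟩
  obtain ⟨z, hz⟩ := CQ_meet hyV hR (hSQ.mono hFS) k1
  have t1 := sd_tri v y w
  have t2 := sd_comm w y
  have m1 := hz w v hw hwy (by omega) hwv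
  have m2 := hz u i (hXV u hu) (hX u hu) (hJ i hi) hui
  exact Cn_insert k5 hu (m1.trans m2.symm)

end H334PI
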