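import Pool.Agent.H334PI.Fin
import Pool.Agent.TH976.KPt

/-!
The half-plane: the inequalities for the infinite volume.
-/

set_option autoImplicit false

namespace H334PI
open Finset H974 Pool.Agent.H160R2.CV H362P TH976
open Pool.Agent.H160R2.CV.Quad Pool.Agent.H389R2.CD

theorem W_mono' {X J : Finset Vtx} : ∀ F G : Set Edg, F ⊆ G → W X J F → W X J G :=
  fun _ _ h hF => W.mono h hF

theorem W_box' {X J : Finset Vtx} : ∀ F : Set Edg, W X J F → ∃ m : ℕ, W X J (F ∩ ↑(boxE m)) := by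
  rintro F ⟨h1, y, hy, i, hi, h2⟩
  obtain ⟨m1, hm1⟩ := Cn_box' F h1
  obtain ⟨m2, hm2⟩ := InfAux.reach_box h2
  refine ⟨max m1 m2, Cn_mono' _ _ (Set.inter_subset_inter_right _
    (InfAux.boxE_coe_mono (le_max_left _ _))) hm1, y, hy, i, hi, hm2.mono
    (Set.inter_subset_inter_right _ (InfAux.boxE_coe_mono (le_max_right _ _)))⟩

theorem W_sh (L : ℤ) (X J : Finset Vtx) (F : Finset Edg) :
    W (X.image (sh L)) (J.image (sh L)) (↑((trl (-L) (-1)).mp F)) ↔ W X J (↑F) := by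
  have key : ∀ u v : Vtx, Reach (↑((trl (-L) (-1)).mp F) : Set Edg) (sh L u) (sh L v) ↔
      Reach (↑F : Set Edg) u v := by
    intro u v
    rw [LSym.coe_mp, sh_eq, sh_eq, LSym.reach_iff]
  unfold W
  rw [Cn_sh]
  apply and_congr Iff.rfl
  constructor
  · rintro ⟨y', hy', i', hi', h⟩
    obtain ⟨y, hy, rfl⟩ := Finset.mem_image.mp hy'
    obtain ⟨i, hi, rfl⟩ := Finset.mem_image.mp hi'
    exact ⟨y, hy, i, hi, (key y i).mp h⟩
  · rintro ⟨y, hy, i, hi, h⟩
    exact ⟨sh L y, Finset.mem_image_of_mem _ hy, sh L i, Finset.mem_image_of_mem _ hi,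
      (key y i).mpr h⟩

theorem pr_shW (L : ℤ) (X J : Finset Vtx) (S : Finset Edg) :
    Pr P ((trl (-L) (-1)).mp S) (fun F => W (X.image (sh L)) (J.image (sh L)) (↑F)) =
      Pr P S (fun F => W X J (↑F)) := by
  change Pr (fun _ => (1 / 2 : ℝ)) _ _ = _
  rw [LSym.pr]
  apply Pr_congr
  intro F _
  exact W_sh L X J F

theorem InQ_S (m : ℕ) : InQ ((trl (-(-(m : ℤ))) (-1)).mp (bD DH m)) := by
  intro e he
  rw [LSym.mem_mp] at he
  obtain ⟨h1, h2⟩ := mem_bD.mp he
  obtain ⟨p, q, b⟩ := e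
  rw [trl_φs] at h1 h2
  have h3 : (1 : ℤ) ≤ (src _).2 := h2.1
  rw [src_mk] at h3
  simp only at h3
  unfold boxE at h1
  cases b
  · rw [mem_RE_false] at h1
    simp only
    omega
  · rw [mem_RE_true] at h1
    simp only
    omega

theorem qb_S {q : Vtx} (hq : q ∈ DH) {n m : ℕ} (hm : q.1.natAbs + q.2.natAbs + n + 1 ≤ m) :
    qb (sh (-(m : ℤ)) q) n ⊆ (trl (-(-(m : ℤ))) (-1)).mp (bD DH m) := by
  have hq' : (1 : ℤ) ≤ q.2 := hq
  intro e he
  rw [LSym.mem_mp, mem_bD]
  obtain ⟨x, y, b⟩ := e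
  rw [trl_φs]
  unfold sh qb at he
  cases b
  · rw [mem_RE_false] at he
    simp only at he
    refine ⟨?_, ?_⟩
    · unfold boxE
      rw [mem_RE_false]
      omega
    · refine ⟨?_, ?_⟩
      · show (1 : ℤ) ≤ (src _).2
        rw [src_mk]
        simp only
        omega
      · show (1 : ℤ) ≤ (tgt _).2
        rw [tgt_false]
        simp only
        omega
  · rw [mem_RE_true] at he
    simp only at he
    refine ⟨?_, ?_⟩
    · unfold boxE
      rw [mem_RE_true]
      omega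
    · refine ⟨?_, ?_⟩
      · show (1 : ℤ) ≤ (src _).2
        rw [src_mk]
        simp only
        omega
      · show (1 : ℤ) ≤ (tgt _).2
        rw [tgt_true]
        simp only
        omega

theorem aqH (hA : ArS) : ∃ K : ℝ, 1 ≤ K ∧ ∀ q ∈ DH, ∀ n m : ℕ, 1 ≤ n →
    q.1.natAbs + q.2.natAbs + n + 1 ≤ m → Cmp K (aq (sh (-(m : ℤ)) q) n) (eH q n) := by
  obtain ⟨K, h⟩ := aq_sh_cmp hA
  have hK : 1 ≤ K := (h 0 (1, 1) (by norm_num) 1 le_rfl).hk
  refine ⟨K, hK, fun q hq n m hn hm => ?_⟩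
  have hq' : (1 : ℤ) ≤ q.2 := hq
  have := h (-(m : ℤ)) q ⟨by omega, hq'⟩ n hn
  rwa [EL_half hn (by omega) (by omega)] at this

theorem lowH (hA : ArS) : ∃ c : ℝ, 0 < c ∧ ∀ (X J : Finset Vtx) (q y : Vtx) (R : ℕ),
    (∀ u ∈ X, u ∈ DH) → q.2 = 1 → 1 ≤ R → y ∈ X → (∀ u ∈ X, 3 * R ≤ sd u q) →
    (∀ t : ℤ, q.1 + R ≤ t → t ≤ q.1 + 3 * R → (t, (1 : ℤ)) ∈ J) →
    c * PD DH (Cn (insert q X)) ≤ eH q R * PD DH (W X J) := by
  obtain ⟨K, hK, h⟩ := aqH hA
  have k40 := k4_pos
  have K0 : 0 < K := by linarith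
  refine ⟨k4 / K, by positivity, ?_⟩
  intro X J q y R hXV hq2 hR hy hX hJ
  have hq : q ∈ DH := by
    show (1 : ℤ) ≤ q.2
    omega
  have he : 0 < eH q R := EH_pos (by exact_mod_cast hR) (by rw [hq2]; norm_num)
  rw [div_mul_eq_mul_div, div_le_iff₀ K0]
  have main : k4 * PD DH (Cn (insert q X)) ≤ (K * eH q R) * PD DH (W X J) := by
    refine PD_mul_le Cn_mono' Cn_box' W_mono' k40 (by positivity)
      (q.1.natAbs + q.2.natAbs + 3 * R + 1) (fun m hm => ?_)
    have c1 := h q hq R m hR (by omega)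
    have t := low (X := X.image (sh (-(m : ℤ)))) (J := J.image (sh (-(m : ℤ))))
      (q := sh (-(m : ℤ)) q) (y := sh (-(m : ℤ)) y) (R := R)
      (S := (trl (-(-(m : ℤ))) (-1)).mp (bD DH m)) (by unfold sh; simp only; omega)
      (by unfold sh; simp only; omega) hR (Finset.mem_image_of_mem _ hy) (by
        intro u hu
        obtain ⟨v, hv, rfl⟩ := Finset.mem_image.mp hu
        rw [sd_sh]
        exact hX v hv) (by
        intro t ht1 ht2
        unfold sh at ht1 ht2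
        simp only at ht1 ht2
        have := hJ (t - m) (by omega) (by omega)
        rw [Finset.mem_image]
        refine ⟨_, this, ?_⟩
        unfold sh
        simp only
        rw [Prod.mk.injEq]
        constructor <;> omega) (InQ_S m) (qb_S hq (by omega))
    rw [← Finset.image_insert, pr_sh, pr_shW] at t
    refine t.trans ?_
    apply mul_le_mul_of_nonneg_right c1.l (Pr_nonneg okP _ _)
  calc k4 * PD DH (Cn (insert q X)) ≤ (K * eH q R) * PD DH (W X J) := main
    _ = _ := by ring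

theorem upH (hA : ArS) : ∃ c : ℝ, 0 < c ∧ ∀ (X J : Finset Vtx) (q : Vtx) (R : ℕ),
    q ∈ DH → 1 ≤ R → (∀ u ∈ X, 3 * R ≤ sd u q) → (∀ i ∈ J, i ∈ DH ∧ sd i q ≤ R) →
    c * (eH q (3 * R) * PD DH (W X J)) ≤ PD DH (Cn (insert q X)) := by
  obtain ⟨K, hK, h⟩ := aqH hA
  have k40 := k4_pos
  have K0 : 0 < K := by linarith
  refine ⟨k4 / K, by positivity, ?_⟩
  intro X J q R hq hR hX hJ
  have hq2 : (1 : ℤ) ≤ q.2 := hq
  have he : 0 < eH q (3 * R) := EH_pos (by exact_mod_cast (by omega : 0 < 3 * R)) (by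
    have : (1 : ℝ) ≤ q.2 := by exact_mod_cast hq2
    linarith)
  rw [div_mul_eq_mul_div, div_le_iff₀ K0]
  have main : (k4 * eH q (3 * R)) * PD DH (W X J) ≤ K * PD DH (Cn (insert q X)) := by
    refine PD_mul_le W_mono' W_box' Cn_mono' (by positivity) K0.le
      (q.1.natAbs + q.2.natAbs + 3 * R + 1 + J.sup (fun v => v.1.natAbs)) (fun m hm => ?_)
    have c1 := h q hq (3 * R) m (by omega) (by omega)
    have t := up (X := X.image (sh (-(m : ℤ)))) (J := J.image (sh (-(m : ℤ))))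
      (q := sh (-(m : ℤ)) q) (R := R)
      (S := (trl (-(-(m : ℤ))) (-1)).mp (bD DH m)) (by unfold InV sh; simp only; omega) hR (by
        intro u hu
        obtain ⟨v, hv, rfl⟩ := Finset.mem_image.mp hu
        rw [sd_sh]
        exact hX v hv) (by
        intro u hu
        obtain ⟨v, hv, rfl⟩ := Finset.mem_image.mp hu
        rw [sd_sh]
        obtain ⟨h1, h2⟩ := hJ v hv
        have h1' : (1 : ℤ) ≤ v.2 := h1
        have : v.1.natAbs ≤ J.sup (fun v => v.1.natAbs) :=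
          Finset.le_sup (f := fun v : Vtx => v.1.natAbs) hv
        exact ⟨by unfold InV sh; simp only; omega, h2⟩) (InQ_S m) (qb_S hq (by omega))
    rw [← Finset.image_insert, pr_sh, pr_shW] at t
    have p0 : 0 ≤ Pr P (bD DH m) (fun F => W X J (↑F)) := Pr_nonneg okP _ _
    generalize Pr P (bD DH m) (fun F => W X J (↑F)) = w at *
    generalize Pr P (bD DH m) (fun F => Cn (insert q X) (↑F)) = w' at *
    generalize aq (sh (-(m : ℤ)) q) (3 * R) = A at *
    calc k4 * eH q (3 * R) * w ≤ k4 * (K * A) * w := by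
          apply mul_le_mul_of_nonneg_right _ p0
          exact mul_le_mul_of_nonneg_left c1.r k40.le
      _ = K * (k4 * A * w) := by ring
      _ ≤ K * w' := mul_le_mul_of_nonneg_left t K0.le
  calc k4 * (eH q (3 * R) * PD DH (W X J)) = (k4 * eH q (3 * R)) * PD DH (W X J) := by ring
    _ ≤ K * PD DH (Cn (insert q X)) := main
    _ = _ := by ring

theorem farH (hA : ArS) : ∃ c : ℝ, 0 < c ∧ ∀ (X J : Finset Vtx) (y w : Vtx) (R : ℕ),
    (∀ u ∈ X, u ∈ DH) → y ∈ DH → w ∈ DH → 1 ≤ R → (∀ u ∈ X, sd u y ≤ R) → sd w y ≤ R →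
    (∀ i ∈ J, 3 * R ≤ sd i y) →
    c * (eH w (4 * R) * PD DH (W X J)) ≤ PD DH (Cn (insert w X)) := by
  obtain ⟨K, hK, h⟩ := aqH hA
  have k40 := k4_pos
  have K0 : 0 < K := by linarith
  refine ⟨k4 / K, by positivity, ?_⟩
  intro X J y w R hXV hy hw hR hX hwy hJ
  have hw2 : (1 : ℤ) ≤ w.2 := hw
  have hy2 : (1 : ℤ) ≤ y.2 := hy
  have he : 0 < eH w (4 * R) := EH_pos (by exact_mod_cast (by omega : 0 < 4 * R)) (by
    have : (1 : ℝ) ≤ w.2 := by exact_mod_cast hw2
    linarith)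
  rw [div_mul_eq_mul_div, div_le_iff₀ K0]
  have main : (k4 * eH w (4 * R)) * PD DH (W X J) ≤ K * PD DH (Cn (insert w X)) := by
    refine PD_mul_le W_mono' W_box' Cn_mono' (by positivity) K0.le
      (w.1.natAbs + w.2.natAbs + y.1.natAbs + y.2.natAbs + 4 * R + 1 +
        X.sup (fun v => v.1.natAbs)) (fun m hm => ?_)
    have c1 := h w hw (4 * R) m (by omega) (by omega)
    have t := far (X := X.image (sh (-(m : ℤ)))) (J := J.image (sh (-(m : ℤ))))
      (y := sh (-(m : ℤ)) y) (w := sh (-(m : ℤ)) w) (R := R)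
      (S := (trl (-(-(m : ℤ))) (-1)).mp (bD DH m)) (by
        intro u hu
        obtain ⟨v, hv, rfl⟩ := Finset.mem_image.mp hu
        have h1' : (1 : ℤ) ≤ v.2 := hXV v hv
        have : v.1.natAbs ≤ X.sup (fun v => v.1.natAbs) :=
          Finset.le_sup (f := fun v : Vtx => v.1.natAbs) hv
        unfold InV sh
        simp only
        omega) (by unfold InV sh; simp only; omega) (by unfold InV sh; simp only; omega) hR (by
        intro u hu
        obtain ⟨v, hv, rfl⟩ := Finset.mem_image.mp hu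
        rw [sd_sh]
        exact hX v hv) (by rw [sd_sh]; exact hwy) (by
        intro u hu
        obtain ⟨v, hv, rfl⟩ := Finset.mem_image.mp hu
        rw [sd_sh]
        exact hJ v hv) (InQ_S m) (qb_S hy (by omega)) (qb_S hw (by omega))
    rw [← Finset.image_insert, pr_sh, pr_shW] at t
    have p0 : 0 ≤ Pr P (bD DH m) (fun F => W X J (↑F)) := Pr_nonneg okP _ _
    generalize Pr P (bD DH m) (fun F => W X J (↑F)) = w0 at *
    generalize Pr P (bD DH m) (fun F => Cn (insert w X) (↑F)) = w' at *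
    generalize aq (sh (-(m : ℤ)) w) (4 * R) = A at *
    calc k4 * eH w (4 * R) * w0 ≤ k4 * (K * A) * w0 := by
          apply mul_le_mul_of_nonneg_right _ p0
          exact mul_le_mul_of_nonneg_left c1.r k40.le
      _ = K * (k4 * A * w0) := by ring
      _ ≤ K * w' := mul_le_mul_of_nonneg_left t K0.le
  calc k4 * (eH w (4 * R) * PD DH (W X J)) = (k4 * eH w (4 * R)) * PD DH (W X J) := by ring
    _ ≤ K * PD DH (Cn (insert w X)) := main
    _ = _ := by ring

end H334PI
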