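import Pool.Agent.H334PI.Mob

/-!
Small mesh.
-/

set_option autoImplicit false

namespace H334PI
open H974 Pool.Agent.H160R2.CV H362P TH976
open Filter Topology

theorem HI_cont {s t : ℝ} (hst : s < t) {z : ℂ} (hz : 0 < z.im) :
    ContinuousAt (fun p : (ℝ × ℝ) × ℂ => HI p.1.1 p.1.2 p.2) ((s, t), z) := by
  have zs : z - (s : ℂ) ≠ 0 := by
    intro h0
    have := congrArg Complex.im h0
    simp at this
    linarith
  have hsl : (z - (t : ℂ)) / (z - (s : ℂ)) ∈ Complex.slitPlane := by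
    rw [Complex.mem_slitPlane_iff_arg]
    obtain ⟨b0, b1, -, -, -⟩ := om_basic hz hst
    refine ⟨b1.ne, ?_⟩
    intro h0
    rw [h0, Complex.arg_zero] at b0
    exact lt_irrefl _ b0
  unfold HI om
  have c1 : ContinuousAt (fun p : (ℝ × ℝ) × ℂ => (p.2 - (p.1.2 : ℂ)) / (p.2 - (p.1.1 : ℂ)))
      ((s, t), z) := by
    apply ContinuousAt.div
    · fun_prop
    · fun_prop
    · exact zs
  have c2 : ContinuousAt (fun p : (ℝ × ℝ) × ℂ =>
      Complex.arg ((p.2 - (p.1.2 : ℂ)) / (p.2 - (p.1.1 : ℂ)))) ((s, t), z) :=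
    ContinuousAt.comp (f := fun p : (ℝ × ℝ) × ℂ => (p.2 - (p.1.2 : ℂ)) / (p.2 - (p.1.1 : ℂ)))
      (g := Complex.arg) (Complex.continuousAt_arg hsl) c1
  have c3 : ContinuousAt (fun p : (ℝ × ℝ) × ℂ => p.2.im) ((s, t), z) := by fun_prop
  have p0 : Complex.arg ((z - (t : ℂ)) / (z - (s : ℂ))) / Real.pi ≠ 0 := (om_pos hz hst).ne'
  exact (c3.rpow_const (Or.inl hz.ne')).mul ((c2.div_const Real.pi).rpow_const (Or.inl p0))

theorem HI_near {s t : ℝ} (hst : s < t) {z : ℕ → ℂ} {k : ℕ} (hz : ∀ i < k, 0 < (z i).im) :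
    ∀ᶠ e : ℝ in 𝓝[>] 0, ∀ i ∈ Finset.range k, ∀ (a : ℂ) (s' t' : ℝ), ‖a - z i‖ ≤ 2 * e →
      |s' - s| ≤ 2 * e → |t' - t| ≤ 2 * e →
        s' < t' ∧ 0 < a.im ∧ Cmp 2 (HI s' t' a) (HI s t (z i)) := by
  rw [Finset.eventually_all]
  intro i hi
  rw [Finset.mem_range] at hi
  have hp := HI_pos hst (hz i hi)
  have c := HI_cont hst (hz i hi)
  have e1 : ∀ᶠ p : (ℝ × ℝ) × ℂ in 𝓝 ((s, t), z i), p.1.1 < p.1.2 ∧ 0 < p.2.im ∧
      Cmp 2 (HI p.1.1 p.1.2 p.2) (HI s t (z i)) := by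
    have f1 : ∀ᶠ p : (ℝ × ℝ) × ℂ in 𝓝 ((s, t), z i), p.1.1 < p.1.2 := by
      apply ContinuousAt.eventually_lt
      · fun_prop
      · fun_prop
      · exact hst
    have f2 : ∀ᶠ p : (ℝ × ℝ) × ℂ in 𝓝 ((s, t), z i), 0 < p.2.im := by
      apply ContinuousAt.eventually_lt continuousAt_const
      · fun_prop
      · exact hz i hi
    have f4 : ∀ᶠ p : (ℝ × ℝ) × ℂ in 𝓝 ((s, t), z i), HI p.1.1 p.1.2 p.2 < 2 * HI s t (z i) :=
      c.eventually (Iio_mem_nhds (show HI s t (z i) < 2 * HI s t (z i) by linarith))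
    have f5 : ∀ᶠ p : (ℝ × ℝ) × ℂ in 𝓝 ((s, t), z i), HI s t (z i) / 2 < HI p.1.1 p.1.2 p.2 :=
      c.eventually (Ioi_mem_nhds (show HI s t (z i) / 2 < HI s t (z i) by linarith))
    filter_upwards [f1, f2, f4, f5] with p q1 q2 q4 q5
    exact ⟨q1, q2, ⟨by norm_num, by linarith, hp, q4.le, by linarith⟩⟩
  obtain ⟨η, hη, hη'⟩ := Metric.eventually_nhds_iff.mp e1
  have e2 : ∀ᶠ e : ℝ in 𝓝[>] 0, e < η / 2 :=
    nhdsWithin_le_nhds (Iio_mem_nhds (half_pos hη))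
  filter_upwards [e2] with e he a s' t' ha hs ht
  have := hη' (y := ((s', t'), a)) (by
    rw [Prod.dist_eq, Prod.dist_eq, max_lt_iff, max_lt_iff]
    refine ⟨⟨?_, ?_⟩, ?_⟩
    · show dist s' s < η
      rw [Real.dist_eq]
      linarith
    · show dist t' t < η
      rw [Real.dist_eq]
      linarith
    · show dist a (z i) < η
      rw [dist_eq_norm]
      linarith)
  exact this

/-- scaling -/
theorem FI_scale {e : ℝ} (he : 0 < e) (s t : ℝ) {k : ℕ} (hk : 2 ≤ k) {z : ℕ → ℂ}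
    (hz : ∀ i < k, 0 < (z i).im) :
    FI s t z k = (e ^ (5 / 48 : ℝ)) ^ k * FI (e * s) (e * t) (fun i => (e : ℂ) * z i) k := by
  have hd : 0 < e * 1 - 0 * 0 := by linarith
  have hp : 0 < (0 * s + 1) * (0 * t + 1) := by norm_num
  have h := FI_mob hd hp hk hz
  have m1 : ∀ z : ℂ, mob e 0 0 1 z = (e : ℂ) * z := by
    intro z
    unfold mob
    simp
  have m2 : ∀ s : ℝ, mobR e 0 0 1 s = e * s := by
    intro s
    unfold mobR
    simp
  rw [m2, m2] at h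
  have m3 : (fun i => mob e 0 0 1 (z i)) = fun i => (e : ℂ) * z i := by
    funext i
    exact m1 (z i)
  rw [m3] at h
  rw [h]
  congr 1
  rw [Finset.prod_congr rfl (fun i hi => by
    rw [(conf_mob hd).deriv_UH (z := z i) (hz i (Finset.mem_range.mp hi)), m1,
      Complex.im_ofReal_mul, mul_div_cancel_right₀ _ (hz i (Finset.mem_range.mp hi)).ne'])]
  rw [Finset.prod_const, Finset.card_range]

theorem FI_cmp {s t s' t' : ℝ} {z z' : ℕ → ℂ} {k : ℕ} (hk : 2 ≤ k)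
    (hg : ∀ i < k, ∀ j < k, i ≠ j → Cmp 2 (gH (z' i) (z' j)) (gH (z i) (z j)))
    (hh : ∀ i < k, Cmp 2 (HI s' t' (z' i)) (HI s t (z i))) :
    Cmp (64 ^ k) (FI s' t' z' k) (FI s t z k) := by
  have c1 := kFun_cmp (g := gH) hk hg
  have := pair_nonempty hk
  have c2 : Cmp 8 (⨆ p : {p : Fin k × Fin k // p.1 < p.2}, PF s' t' (z' p.1.1) (z' p.1.2))
      (⨆ p : {p : Fin k × Fin k // p.1 < p.2}, PF s t (z p.1.1) (z p.1.2)) := by
    apply Cmp.iSup'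
    rintro ⟨⟨⟨i, hi⟩, ⟨j, hj⟩⟩, hij⟩
    have hij' : i < j := hij
    have t1 := ((hh i hi).mul (hh j hj)).div (hg i hi j hj (by omega))
    show Cmp 8 (PF s' t' (z' i) (z' j)) (PF s t (z i) (z j))
    unfold PF
    rw [Real.sqrt_eq_rpow, Real.sqrt_eq_rpow]
    exact (t1.rpow (by norm_num) (by norm_num)).weaken (by norm_num)
  have c3 := c1.mul (((Cmp.refl one_pos).weaken (show (1 : ℝ) ≤ 8 by norm_num)).min' c2)
  unfold FI
  refine c3.weaken ?_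
  calc (8 : ℝ) ^ k * 8 = 8 ^ k * 8 ^ 1 := by ring
    _ ≤ 8 ^ k * 8 ^ k := by
        apply mul_le_mul_of_nonneg_left _ (by positivity)
        exact pow_le_pow_right₀ (by norm_num) (by omega)
    _ = 64 ^ k := by rw [← mul_pow]; norm_num

/-- the probabilities at small mesh, in terms of the functions of the limit -/
theorem mesh_one {P : ℤ → ℕ → Finset (ℤ × ℤ) → ℝ} {C : ℝ}
    (hP : ∀ (p : ℤ) (l n : ℕ) (x : ℕ → ℤ × ℤ), 1 ≤ l → 2 ≤ n → (∀ i < n, x i ∈ DH) →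
      (∀ i < n, ∀ j < n, i ≠ j → x i ≠ x j) →
      Cmp (C ^ n) (P p l ((Finset.range n).image x))
        (FI ((p : ℝ) - 1 / 2) ((p : ℝ) + l - 1 / 2) (fun i => cx (x i)) n))
    {k : ℕ} (hk : 2 ≤ k) {z : ℕ → ℂ} (hz : ∀ i < k, 0 < (z i).im)
    (hd : ∀ i < k, ∀ j < k, i ≠ j → z i ≠ z j) {s t : ℝ} (hst : s < t) :
    ∀ᶠ e : ℝ in 𝓝[>] 0, ∀ (x : ℕ → ℤ × ℤ) (p : ℤ) (l : ℕ),
      (∀ i < k, ‖(e : ℂ) * cx (x i) - z i‖ ≤ 2 * e) →
      |e * ((p : ℝ) - 1 / 2) - s| ≤ 2 * e → |e * ((p : ℝ) + l - 1 / 2) - t| ≤ 2 * e →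
      Cmp ((64 * C) ^ k) (P p l ((Finset.range k).image x))
        ((e ^ (5 / 48 : ℝ)) ^ k * FI s t z k) := by
  have hz' : ∀ i < k, z i ∈ UH := hz
  have e0 : ∀ᶠ e : ℝ in 𝓝[>] 0, 0 < e := self_mem_nhdsWithin
  filter_upwards [e0, mod_H.near hz' hd, HI_near hst hz] with e he n1 n2 x p l hx hs ht
  have other : ∀ i < k, ∃ j < k, i ≠ j := by
    intro i hi
    by_cases h0 : i = 0
    · exact ⟨1, by omega, by omega⟩
    · exact ⟨0, by omega, h0⟩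
  have m0 : ∀ i < k, s < t ∧ e * ((p : ℝ) - 1 / 2) < e * ((p : ℝ) + l - 1 / 2) ∧
      0 < ((e : ℂ) * cx (x i)).im ∧ Cmp 2 (HI (e * ((p : ℝ) - 1 / 2)) (e * ((p : ℝ) + l - 1 / 2))
        ((e : ℂ) * cx (x i))) (HI s t (z i)) := by
    intro i hi
    have := n2 i (Finset.mem_range.mpr hi) _ _ _ (hx i hi) hs ht
    exact ⟨hst, this⟩
  have hl : 1 ≤ l := by
    have h1 := (m0 0 (by omega)).2.1
    by_contra hc
    have h0 : l = 0 := by omega
    rw [h0, Nat.cast_zero, add_zero] at h1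
    exact lt_irrefl _ h1
  have hxV : ∀ i < k, x i ∈ DH := by
    intro i hi
    have h1 := (m0 i hi).2.2.1
    rw [Complex.im_ofReal_mul] at h1
    have h2 : 0 < (cx (x i)).im := pos_of_mul_pos_right h1 he.le
    exact (mod_H.vert _).mpr h2
  have hxd : ∀ i < k, ∀ j < k, i ≠ j → x i ≠ x j := by
    intro i hi j hj hij heq
    have := (n1 i (Finset.mem_range.mpr hi) j (Finset.mem_range.mpr hj) hij _ _ (hx i hi)
      (hx j hj)).2.2.1
    rw [heq] at this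
    exact this rfl
  have t1 := hP p l k x hl hk hxV hxd
  rw [FI_scale he _ _ hk (z := fun i => cx (x i)) (fun i hi => (mod_H.vert _).mp (hxV i hi))] at t1
  have c1 := FI_cmp (s := s) (t := t) (s' := e * ((p : ℝ) - 1 / 2))
    (t' := e * ((p : ℝ) + l - 1 / 2)) (z := z) (z' := fun i => (e : ℂ) * cx (x i)) hk
    (fun i hi j hj hij => (n1 i (Finset.mem_range.mpr hi) j (Finset.mem_range.mpr hj) hij _ _
      (hx i hi) (hx j hj)).2.2.2) (fun i hi => (m0 i hi).2.2.2)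
  have a0 : 0 < (e ^ (5 / 48 : ℝ)) ^ k := by positivity
  refine (t1.trans ((Cmp.refl a0).mul c1)).weaken (le_of_eq ?_)
  rw [mul_pow]
  ring

/-- **Covariance at small mesh.** -/
theorem mesh_two {P : ℤ → ℕ → Finset (ℤ × ℤ) → ℝ} {C : ℝ}
    (hP : ∀ (p : ℤ) (l n : ℕ) (x : ℕ → ℤ × ℤ), 1 ≤ l → 2 ≤ n → (∀ i < n, x i ∈ DH) →
      (∀ i < n, ∀ j < n, i ≠ j → x i ≠ x j) →
      Cmp (C ^ n) (P p l ((Finset.range n).image x))
        (FI ((p : ℝ) - 1 / 2) ((p : ℝ) + l - 1 / 2) (fun i => cx (x i)) n))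
    {α β γ δ : ℝ} (h : 0 < α * δ - β * γ)
    {k : ℕ} (hk : 2 ≤ k) {z : ℕ → ℂ} (hz : ∀ i < k, 0 < (z i).im)
    (hd : ∀ i < k, ∀ j < k, i ≠ j → z i ≠ z j) {s t : ℝ} (hst : s < t)
    (hp : 0 < (γ * s + δ) * (γ * t + δ)) :
    ∀ᶠ e : ℝ in 𝓝[>] 0, ∀ (x y : ℕ → ℤ × ℤ) (p p' : ℤ) (l l' : ℕ),
      (∀ i < k, ‖(e : ℂ) * cx (x i) - z i‖ ≤ 2 * e) →
      |e * ((p : ℝ) - 1 / 2) - s| ≤ 2 * e → |e * ((p : ℝ) + l - 1 / 2) - t| ≤ 2 * e →
      (∀ i < k, ‖(e : ℂ) * cx (y i) - mob α β γ δ (z i)‖ ≤ 2 * e) →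
      |e * ((p' : ℝ) - 1 / 2) - mobR α β γ δ s| ≤ 2 * e →
      |e * ((p' : ℝ) + l' - 1 / 2) - mobR α β γ δ t| ≤ 2 * e →
      Cmp ((4096 * C * C) ^ k) (P p l ((Finset.range k).image x))
        ((∏ i ∈ Finset.range k, ‖deriv (mob α β γ δ) (z i)‖ ^ (5 / 48 : ℝ)) *
          P p' l' ((Finset.range k).image y)) := by
  have hz' : ∀ i < k, 0 < (mob α β γ δ (z i)).im := fun i hi => mob_mem h (hz i hi)
  have hd' : ∀ i < k, ∀ j < k, i ≠ j → mob α β γ δ (z i) ≠ mob α β γ δ (z j) := by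
    intro i hi j hj hij he
    apply hd i hi j hj hij
    rw [← mob_inv h (hz i hi), he, mob_inv h (hz j hj)]
  filter_upwards [mesh_one hP hk hz hd hst, mesh_one hP hk hz' hd' (mobR_lt h hst hp)]
    with e n1 n2 x y p p' l l' hx hs ht hy hs' ht'
  have t1 := n1 x p l hx hs ht
  have t2 := n2 y p' l' hy hs' ht'
  have J0 : 0 < ∏ i ∈ Finset.range k, ‖deriv (mob α β γ δ) (z i)‖ ^ (5 / 48 : ℝ) := by
    apply Finset.prod_pos
    intro i hi
    have := (conf_mob h).deriv_ne UH_open UH_open (hz i (Finset.mem_range.mp hi))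
    have := norm_pos_iff.mpr this
    positivity
  rw [FI_mob h hp hk hz] at t1
  generalize (∏ i ∈ Finset.range k, ‖deriv (mob α β γ δ) (z i)‖ ^ (5 / 48 : ℝ)) = J at *
  have r3 := (Cmp.refl J0).mul t2.symm
  have r4 := t1.trans (r3.congr (by ring) rfl)
  refine r4.weaken (le_of_eq ?_)
  rw [one_mul, ← mul_pow]
  congr 1
  ring

end H334PI
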