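import Pool.Agent.H334PI.Fun

/-!
Exact covariance under the conformal automorphisms of the half-plane.
-/

set_option autoImplicit false

namespace H334PI
open H974 Pool.Agent.H160R2.CV H362P TH976

/-- the Möbius map with real coefficients -/
noncomputable def mob (α β γ δ : ℝ) (z : ℂ) : ℂ := (α * z + β) / (γ * z + δ)

/-- the same map on the real line -/
noncomputable def mobR (α β γ δ : ℝ) (s : ℝ) : ℝ := (α * s + β) / (γ * s + δ)

variable {α β γ δ : ℝ}

theorem mob_den (h : 0 < α * δ - β * γ) {z : ℂ} (hz : 0 < z.im) : (γ : ℂ) * z + δ ≠ 0 := by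
  intro h0
  have h1 := congrArg Complex.im h0
  have h2 := congrArg Complex.re h0
  simp only [Complex.add_im, Complex.im_ofReal_mul, Complex.ofReal_im, Complex.add_re,
    Complex.re_ofReal_mul, Complex.ofReal_re, Complex.zero_im, Complex.zero_re, add_zero] at h1 h2
  have h3 : γ = 0 := by
    rcases mul_eq_zero.mp h1 with h4 | h4
    · exact h4
    · linarith
  rw [h3, zero_mul, zero_add] at h2
  rw [h3, h2] at h
  simp at h

theorem mob_im {z : ℂ} : (mob α β γ δ z).im =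
    (α * δ - β * γ) * z.im / Complex.normSq ((γ : ℂ) * z + δ) := by
  unfold mob
  rw [Complex.div_im]
  simp only [Complex.add_im, Complex.im_ofReal_mul, Complex.ofReal_im, Complex.add_re,
    Complex.re_ofReal_mul, Complex.ofReal_re, add_zero]
  ring

theorem mob_mem (h : 0 < α * δ - β * γ) {z : ℂ} (hz : 0 < z.im) : 0 < (mob α β γ δ z).im := by
  rw [mob_im]
  have h1 : 0 < Complex.normSq ((γ : ℂ) * z + δ) := Complex.normSq_pos.mpr (mob_den h hz)
  positivity

theorem mob_inv (h : 0 < α * δ - β * γ) {z : ℂ} (hz : 0 < z.im) :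
    mob δ (-β) (-γ) α (mob α β γ δ z) = z := by
  have d1 := mob_den h hz
  have h' : 0 < δ * α - (-β) * (-γ) := by linarith
  have d2 := mob_den (α := δ) (β := -β) (γ := -γ) (δ := α) h' (mob_mem h hz)
  have hdet : ((α * δ - β * γ : ℝ) : ℂ) ≠ 0 := by exact_mod_cast h.ne'
  unfold mob at d2 ⊢
  rw [div_eq_iff d2]
  have e : (α * z + β) / (γ * z + δ) * ((γ : ℂ) * z + δ) = α * z + β := div_mul_cancel₀ _ d1
  push_cast
  linear_combination e

theorem conf_mob (h : 0 < α * δ - β * γ) : Conf UH UH (mob α β γ δ) := by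
  have h' : 0 < δ * α - (-β) * (-γ) := by linarith
  have hd : ∀ (a b c d : ℝ), 0 < a * d - b * c → DifferentiableOn ℂ (mob a b c d) UH := by
    intro a b c d hh
    unfold mob
    apply DifferentiableOn.div
    · fun_prop
    · fun_prop
    · intro z hz
      exact mob_den hh hz
  refine ⟨hd _ _ _ _ h, fun z hz => mob_mem h hz, mob δ (-β) (-γ) α, hd _ _ _ _ h',
    fun z hz => mob_mem h' hz, fun z hz => mob_inv h hz, ?_⟩
  intro w hw
  have := mob_inv (α := δ) (β := -β) (γ := -γ) (δ := α) h' hw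
  rwa [neg_neg, neg_neg] at this

theorem mob_sub (h : 0 < α * δ - β * γ) {z : ℂ} (hz : 0 < z.im) {s : ℝ} (hs : γ * s + δ ≠ 0) :
    mob α β γ δ z - (mobR α β γ δ s : ℂ) =
      ((α * δ - β * γ : ℝ) : ℂ) * (z - s) / (((γ : ℂ) * z + δ) * ((γ * s + δ : ℝ) : ℂ)) := by
  have d1 := mob_den h hz
  have d2 : ((γ * s + δ : ℝ) : ℂ) ≠ 0 := by exact_mod_cast hs
  unfold mob mobR
  push_cast at d2 ⊢
  rw [div_sub_div _ _ d1 d2]
  congr 1
  ring

theorem mobR_lt (h : 0 < α * δ - β * γ) {s t : ℝ} (hst : s < t)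
    (hp : 0 < (γ * s + δ) * (γ * t + δ)) : mobR α β γ δ s < mobR α β γ δ t := by
  have h1 : γ * s + δ ≠ 0 := by
    intro h0
    rw [h0, zero_mul] at hp
    exact lt_irrefl _ hp
  have h2 : γ * t + δ ≠ 0 := by
    intro h0
    rw [h0, mul_zero] at hp
    exact lt_irrefl _ hp
  have e : mobR α β γ δ t - mobR α β γ δ s =
      (α * δ - β * γ) * (t - s) / ((γ * s + δ) * (γ * t + δ)) := by
    unfold mobR
    rw [div_sub_div _ _ h2 h1, div_eq_div_iff (mul_ne_zero h2 h1) (mul_ne_zero h1 h2)]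
    ring
  have : 0 < (α * δ - β * γ) * (t - s) / ((γ * s + δ) * (γ * t + δ)) := by
    have : 0 < t - s := by linarith
    positivity
  linarith

theorem om_mob (h : 0 < α * δ - β * γ) {s t : ℝ}
    (hp : 0 < (γ * s + δ) * (γ * t + δ)) {z : ℂ} (hz : 0 < z.im) :
    om (mobR α β γ δ s) (mobR α β γ δ t) (mob α β γ δ z) = om s t z := by
  have h1 : γ * s + δ ≠ 0 := by
    intro h0
    rw [h0, zero_mul] at hp
    exact lt_irrefl _ hp
  have h2 : γ * t + δ ≠ 0 := by
    intro h0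
    rw [h0, mul_zero] at hp
    exact lt_irrefl _ hp
  have hr : 0 < (γ * s + δ) / (γ * t + δ) := by
    rcases lt_or_gt_of_ne h2 with h3 | h3
    · have : γ * s + δ < 0 := by
        by_contra hc
        push Not at hc
        nlinarith
      exact div_pos_of_neg_of_neg this h3
    · have : 0 < γ * s + δ := by
        by_contra hc
        push Not at hc
        nlinarith
      exact div_pos this h3
  have d1 := mob_den h hz
  have hdet : ((α * δ - β * γ : ℝ) : ℂ) ≠ 0 := by exact_mod_cast h.ne'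
  have e1 : ((γ * s + δ : ℝ) : ℂ) ≠ 0 := by exact_mod_cast h1
  have e2 : ((γ * t + δ : ℝ) : ℂ) ≠ 0 := by exact_mod_cast h2
  have zs : z - (s : ℂ) ≠ 0 := by
    intro h0
    have := congrArg Complex.im h0
    simp at this
    linarith
  unfold om
  rw [mob_sub h hz h1, mob_sub h hz h2]
  have key : ((α * δ - β * γ : ℝ) : ℂ) * (z - t) / (((γ : ℂ) * z + δ) * ((γ * t + δ : ℝ) : ℂ)) /
      (((α * δ - β * γ : ℝ) : ℂ) * (z - s) / (((γ : ℂ) * z + δ) * ((γ * s + δ : ℝ) : ℂ))) =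
      (((γ * s + δ) / (γ * t + δ) : ℝ) : ℂ) * ((z - t) / (z - s)) := by
    rw [Complex.ofReal_div]
    generalize ((α * δ - β * γ : ℝ) : ℂ) = D at *
    generalize ((γ * s + δ : ℝ) : ℂ) = S at *
    generalize ((γ * t + δ : ℝ) : ℂ) = T at *
    generalize (γ : ℂ) * z + δ = Z at *
    field_simp
  rw [key, Complex.arg_real_mul _ hr]

theorem HI_mob (h : 0 < α * δ - β * γ) {s t : ℝ}
    (hp : 0 < (γ * s + δ) * (γ * t + δ)) {z : ℂ} (hz : 0 < z.im) :
    HI s t z = ‖deriv (mob α β γ δ) z‖ ^ (5 / 48 : ℝ) *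
      HI (mobR α β γ δ s) (mobR α β γ δ t) (mob α β γ δ z) := by
  unfold HI
  rw [om_mob h hp hz, (conf_mob h).deriv_UH hz]
  have z1 := mob_mem h hz
  generalize (mob α β γ δ z).im = y' at *
  rw [Real.div_rpow z1.le hz.le, ← mul_assoc]
  congr 1
  rw [Real.rpow_neg hz.le, Real.rpow_neg z1.le]
  have a1 : 0 < y' ^ (5 / 48 : ℝ) := Real.rpow_pos_of_pos z1 _
  field_simp

theorem HI_pos {s t : ℝ} (hst : s < t) {z : ℂ} (hz : 0 < z.im) : 0 < HI s t z := by
  unfold HI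
  have := om_pos hz hst
  positivity

theorem PF_mob (h : 0 < α * δ - β * γ) {s t : ℝ}
    (hp : 0 < (γ * s + δ) * (γ * t + δ)) {z w : ℂ} (hz : 0 < z.im) (hw : 0 < w.im) :
    PF s t z w = PF (mobR α β γ δ s) (mobR α β γ δ t) (mob α β γ δ z) (mob α β γ δ w) := by
  unfold PF
  rw [HI_mob h hp hz, HI_mob h hp hw, gH_conf (conf_mob h) (z := z) (w := w) hz hw]
  have n1 : 0 < ‖deriv (mob α β γ δ) z‖ ^ (5 / 48 : ℝ) :=
    Real.rpow_pos_of_pos (norm_pos_iff.mpr ((conf_mob h).deriv_ne UH_open UH_open hz)) _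
  have n2 : 0 < ‖deriv (mob α β γ δ) w‖ ^ (5 / 48 : ℝ) :=
    Real.rpow_pos_of_pos (norm_pos_iff.mpr ((conf_mob h).deriv_ne UH_open UH_open hw)) _
  generalize ‖deriv (mob α β γ δ) z‖ ^ (5 / 48 : ℝ) = A at *
  generalize ‖deriv (mob α β γ δ) w‖ ^ (5 / 48 : ℝ) = B at *
  congr 1
  rw [show A * HI (mobR α β γ δ s) (mobR α β γ δ t) (mob α β γ δ z) *
    (B * HI (mobR α β γ δ s) (mobR α β γ δ t) (mob α β γ δ w)) =
    (A * B) * (HI (mobR α β γ δ s) (mobR α β γ δ t) (mob α β γ δ z) *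
    HI (mobR α β γ δ s) (mobR α β γ δ t) (mob α β γ δ w)) by ring]
  rw [mul_div_mul_left _ _ (mul_pos n1 n2).ne']

theorem FI_mob (h : 0 < α * δ - β * γ) {s t : ℝ}
    (hp : 0 < (γ * s + δ) * (γ * t + δ)) {k : ℕ} (hk : 2 ≤ k) {z : ℕ → ℂ}
    (hz : ∀ i < k, 0 < (z i).im) :
    FI s t z k = (∏ i ∈ Finset.range k, ‖deriv (mob α β γ δ) (z i)‖ ^ (5 / 48 : ℝ)) *
      FI (mobR α β γ δ s) (mobR α β γ δ t) (fun i => mob α β γ δ (z i)) k := by
  unfold FI
  rw [mod_H.cov mod_H (conf_mob h) hk (z := z) (fun i hi => hz i hi), mul_assoc]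
  congr 3
  apply iSup_congr
  rintro ⟨⟨⟨i, hi⟩, ⟨j, hj⟩⟩, hij⟩
  exact PF_mob h hp (hz i hi) (hz j hj)

end H334PI
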