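import Pool.Agent.H334PI.Pair

/-!
Harmonic measure of a boundary interval, and the profile of one vertex.
-/

set_option autoImplicit false

namespace H334PI
open Finset H974 Pool.Agent.H160R2.CV H362P TH976
open Pool.Agent.H160R2.CV.Quad Pool.Agent.H389R2.CD

/-- harmonic measure of the interval `[s, t]` of the real line, seen from the point `z` of the
upper half-plane -/
noncomputable def om (s t : ℝ) (z : ℂ) : ℝ := Complex.arg ((z - t) / (z - s)) / Real.pi

theorem om_basic {s t : ℝ} {z : ℂ} (hz : 0 < z.im) (hst : s < t) :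
    0 < Complex.arg ((z - t) / (z - s)) ∧ Complex.arg ((z - t) / (z - s)) < Real.pi ∧
    Real.sin (Complex.arg ((z - t) / (z - s))) = z.im * (t - s) / (‖z - s‖ * ‖z - t‖) ∧
    (0 ≤ (z.re - t) * (z.re - s) + z.im ^ 2 →
      Complex.arg ((z - t) / (z - s)) ≤ Real.pi / 2) ∧
    ((z.re - t) * (z.re - s) + z.im ^ 2 < 0 →
      Real.pi / 2 < Complex.arg ((z - t) / (z - s))) := by
  have hne : z - (s : ℂ) ≠ 0 := by
    intro h
    have := congrArg Complex.im h
    simp at this
    linarith
  have hne' : z - (t : ℂ) ≠ 0 := by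
    intro h
    have := congrArg Complex.im h
    simp at this
    linarith
  have n1 : 0 < ‖z - (s : ℂ)‖ := norm_pos_iff.mpr hne
  have n2 : 0 < ‖z - (t : ℂ)‖ := norm_pos_iff.mpr hne'
  have hN : Complex.normSq (z - s) = ‖z - (s : ℂ)‖ ^ 2 := Complex.normSq_eq_norm_sq _
  have hre : ((z - t) / (z - s)).re = ((z.re - t) * (z.re - s) + z.im ^ 2) / ‖z - (s : ℂ)‖ ^ 2 := by
    rw [Complex.div_re, hN]
    simp only [Complex.sub_re, Complex.sub_im, Complex.ofReal_re, Complex.ofReal_im, sub_zero]
    ring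
  have him : ((z - t) / (z - s)).im = z.im * (t - s) / ‖z - (s : ℂ)‖ ^ 2 := by
    rw [Complex.div_im, hN]
    simp only [Complex.sub_re, Complex.sub_im, Complex.ofReal_re, Complex.ofReal_im, sub_zero]
    ring
  have hsin : Real.sin (Complex.arg ((z - t) / (z - s))) =
      z.im * (t - s) / (‖z - s‖ * ‖z - t‖) := by
    rw [Complex.sin_arg, him, norm_div]
    field_simp
  have hts : 0 < t - s := by linarith
  have hpos : 0 < Real.sin (Complex.arg ((z - t) / (z - s))) := by
    rw [hsin]
    positivity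
  have h0 : 0 < Complex.arg ((z - t) / (z - s)) := by
    by_contra hc
    push Not at hc
    have := Real.sin_nonpos_of_nonpos_of_neg_pi_le hc (Complex.neg_pi_lt_arg _).le
    linarith
  refine ⟨h0, ?_, hsin, ?_, ?_⟩
  · refine lt_of_le_of_ne (Complex.arg_le_pi _) ?_
    intro h
    rw [h, Real.sin_pi] at hpos
    exact lt_irrefl _ hpos
  · intro h
    have := (Complex.abs_arg_le_pi_div_two_iff (z := (z - t) / (z - s))).mpr (by
      rw [hre]
      positivity)
    exact (le_abs_self _).trans this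
  · intro h
    by_contra hc
    push Not at hc
    have h1 : |Complex.arg ((z - t) / (z - s))| ≤ Real.pi / 2 := by
      rw [abs_of_pos h0]
      exact hc
    have h2 := Complex.abs_arg_le_pi_div_two_iff.mp h1
    rw [hre] at h2
    have h3 : ((z.re - t) * (z.re - s) + z.im ^ 2) / ‖z - (s : ℂ)‖ ^ 2 < 0 :=
      div_neg_of_neg_of_pos h (by positivity)
    linarith

theorem om_pos {s t : ℝ} {z : ℂ} (hz : 0 < z.im) (hst : s < t) : 0 < om s t z :=
  div_pos (om_basic hz hst).1 Real.pi_pos

theorem om_est {s t S : ℝ} {z : ℂ} (hz : 0 < z.im) (hst : s < t) (hS : 0 < S) {n1 n2 : ℝ}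
    (hn : ‖z - s‖ * ‖z - t‖ = n1 * n2) (hA : 0 ≤ (z.re - t) * (z.re - s) + z.im ^ 2)
    (h1 : S ≤ 2 * n1) (h2 : n1 ≤ 2 * S) (h3 : max S (t - s) ≤ 2 * n2)
    (h4 : n2 ≤ 3 * max S (t - s)) :
    Cmp 24 (om s t z) (z.im * min (t - s) S / S ^ 2) := by
  obtain ⟨b0, b1, b2, b3, -⟩ := om_basic hz hst
  have b4 := b3 hA
  have l0 : 0 < t - s := by linarith
  have s1 := Real.sin_le b0.le
  have s2 := Real.mul_le_sin b0.le b4
  rw [b2, hn] at s1 s2
  unfold om
  generalize Complex.arg ((z - t) / (z - s)) = θ at *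
  set M := max S (t - s) with hM
  have M0 : 0 < M := lt_of_lt_of_le hS (le_max_left _ _)
  have e1 : z.im * min (t - s) S / S ^ 2 = z.im * (t - s) / (S * M) := by
    have h5 : min (t - s) S * M = (t - s) * S := by
      rw [hM, max_comm, min_mul_max]
    rw [div_eq_div_iff (by positivity) (by positivity)]
    calc z.im * min (t - s) S * (S * M) = z.im * S * (min (t - s) S * M) := by ring
      _ = _ := by rw [h5]; ring
  rw [e1]
  have n10 : 0 < n1 := by linarith
  have n20 : 0 < n2 := by linarith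
  generalize t - s = l at *
  generalize z.im = y at *
  have q1 : y * l / (n1 * n2) ≤ 4 * (y * l / (S * M)) := by
    rw [← mul_div_assoc, div_le_div_iff₀ (by positivity) (by positivity)]
    have : S * M ≤ (2 * n1) * (2 * n2) := mul_le_mul h1 h3 M0.le (by positivity)
    nlinarith [mul_pos hz l0]
  have q2 : y * l / (S * M) ≤ 6 * (y * l / (n1 * n2)) := by
    rw [← mul_div_assoc, div_le_div_iff₀ (by positivity) (by positivity)]
    have : n1 * n2 ≤ (2 * S) * (3 * M) := mul_le_mul h2 h4 n20.le (by positivity)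
    nlinarith [mul_pos hz l0]
  have T0 : 0 < y * l / (S * M) := by positivity
  have Q0 : 0 < y * l / (n1 * n2) := by positivity
  generalize y * l / (S * M) = T at *
  generalize y * l / (n1 * n2) = Q at *
  have p0 := Real.pi_pos
  have p3 := Real.pi_gt_three
  have p4 := Real.pi_le_four
  refine ⟨by norm_num, by positivity, T0, ?_, ?_⟩
  · rw [div_le_iff₀ p0]
    have h6 : 2 / Real.pi * θ ≤ Q := s2
    have h7 : 2 * θ ≤ Q * Real.pi := by
      have := mul_le_mul_of_nonneg_right h6 p0.le
      have e : 2 / Real.pi * θ * Real.pi = 2 * θ := by field_simp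
      linarith
    nlinarith
  · have h6 : Q / 4 ≤ θ / Real.pi := by
      rw [div_le_div_iff₀ (by norm_num) p0]
      nlinarith
    linarith

theorem nb {z : ℂ} (hz : 0 < z.im) (r : ℝ) : |z.re - r| ≤ ‖z - r‖ ∧ z.im ≤ ‖z - r‖ ∧
    ‖z - r‖ ≤ |z.re - r| + z.im := by
  have h1 := Complex.abs_re_le_norm (z - r)
  have h2 := Complex.abs_im_le_norm (z - r)
  have h3 := Complex.norm_le_abs_re_add_abs_im (z - r)
  simp only [Complex.sub_re, Complex.sub_im, Complex.ofReal_re, Complex.ofReal_im, sub_zero]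
    at h1 h2 h3
  rw [abs_of_pos hz] at h2 h3
  exact ⟨h1, h2, h3⟩

/-- the harmonic measure of a discrete interval -/
theorem om_cmp {p : ℤ} {l : ℕ} (hl : 1 ≤ l) {x : Vtx} (hx : x ∈ DH) {a S : ℕ}
    (ha : Dst {x} (Iv p l) a) (hS : S = max a x.2.toNat) :
    Cmp 24 (om ((p : ℝ) - 1 / 2) ((p : ℝ) + l - 1 / 2) (cx x))
      ((x.2 : ℝ) * min (l : ℝ) S / (S : ℝ) ^ 2) := by
  have hx' : (1 : ℤ) ≤ x.2 := hx
  obtain ⟨⟨x', hx1, j, hj, haj⟩, hmin⟩ := ha
  rw [Finset.mem_singleton] at hx1
  subst hx1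
  have hj' := mem_Iv.mp hj
  have hm : ∀ i : Vtx, i ∈ Iv p l → a ≤ sd x' i := fun i hi =>
    hmin ⟨x', Finset.mem_singleton_self _, i, hi, rfl⟩
  have hy : (0 : ℝ) < x'.2 := by
    have : (1 : ℝ) ≤ x'.2 := by exact_mod_cast hx'
    linarith
  have hz : 0 < (cx x').im := hy
  have hre : (cx x').re = x'.1 := rfl
  have him : (cx x').im = x'.2 := rfl
  have hl0 : (1 : ℝ) ≤ l := by exact_mod_cast hl
  set s : ℝ := (p : ℝ) - 1 / 2 with hs
  set t : ℝ := (p : ℝ) + l - 1 / 2 with ht
  have hst : s < t := by linarith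
  have hts : t - s = l := by rw [hs, ht]; ring
  obtain ⟨u1, u2, u3⟩ := nb hz s
  obtain ⟨v1, v2, v3⟩ := nb hz t
  have hy1 : (1 : ℝ) ≤ x'.2 := by exact_mod_cast hx'
  rcases lt_or_ge x'.1 p with hc | hc
  · -- left
    have h1 := hm (p, 1) (mem_Iv.mpr ⟨rfl, le_rfl, by show p < p + (l : ℤ); omega⟩)
    have h2 : (S : ℤ) = max (p - x'.1) x'.2 := by
      unfold sd at haj h1
      simp only at haj h1
      omega
    have h3 : (S : ℝ) = max ((p : ℝ) - x'.1) x'.2 := by exact_mod_cast congrArg (Int.cast (R := ℝ)) h2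
    have h4 : (1 : ℝ) ≤ (p : ℝ) - x'.1 := by
      have : (1 : ℤ) ≤ p - x'.1 := by omega
      exact_mod_cast this
    have S1 : (p : ℝ) - x'.1 ≤ S := by rw [h3]; exact le_max_left _ _
    have S2 : (x'.2 : ℝ) ≤ S := by rw [h3]; exact le_max_right _ _
    have S3 : (S : ℝ) ≤ (p : ℝ) - x'.1 ∨ (S : ℝ) ≤ x'.2 := by
      rw [h3]
      exact le_max_iff.mp le_rfl
    have a1 : |(cx x').re - s| = (p : ℝ) - x'.1 - 1 / 2 := by
      rw [hre, hs, abs_sub_comm, abs_of_pos (by linarith)]
      ring
    have a2 : |(cx x').re - t| = (p : ℝ) - x'.1 + l - 1 / 2 := by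
      rw [hre, ht, abs_sub_comm, abs_of_pos (by linarith)]
      ring
    rw [a1] at u1 u3
    rw [him] at u2 u3
    rw [a2] at v1 v3
    rw [him] at v2 v3
    have M1 := le_max_left (S : ℝ) (t - s)
    have M2 := le_max_right (S : ℝ) (t - s)
    have M3 : max (S : ℝ) (t - s) ≤ S ∨ max (S : ℝ) (t - s) ≤ t - s := le_max_iff.mp le_rfl
    rw [hts] at M1 M2 M3
    have key := om_est hz hst (S := S) (by linarith) (n1 := ‖cx x' - s‖) (n2 := ‖cx x' - t‖) rfl ?_ ?_
      ?_ ?_ ?_
    · rw [hts, him] at key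
      exact key
    · rw [hre, hs, ht]
      nlinarith [sq_nonneg (cx x').im]
    · rcases S3 with h | h <;> linarith
    · linarith
    · rw [hts]
      generalize max (S : ℝ) (l : ℝ) = M at *
      rcases M3 with h | h
      · rcases S3 with h' | h' <;> linarith
      · linarith
    · rw [hts]
      linarith
  rcases lt_or_ge x'.1 (p + l) with hc2 | hc2
  · -- above
    have h1 := hm (x'.1, 1) (mem_Iv.mpr ⟨rfl, hc, hc2⟩)
    have h2 : (S : ℤ) = x'.2 := by
      unfold sd at haj h1
      simp only at haj h1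
      omega
    have h3 : (S : ℝ) = x'.2 := by exact_mod_cast congrArg (Int.cast (R := ℝ)) h2
    have h4 : (0 : ℝ) ≤ (x'.1 : ℝ) - p := by
      have : (0 : ℤ) ≤ x'.1 - p := by omega
      exact_mod_cast this
    have h5 : (x'.1 : ℝ) - p ≤ l - 1 := by
      have : x'.1 - p ≤ l - 1 := by omega
      exact_mod_cast this
    have a1 : |(cx x').re - s| = (x'.1 : ℝ) - s := by
      rw [hre, abs_of_pos (by linarith)]
    have a2 : |(cx x').re - t| = t - (x'.1 : ℝ) := by
      rw [hre, abs_sub_comm, abs_of_pos (by linarith)]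
    rw [a1] at u1 u3
    rw [him] at u2 u3
    rw [a2] at v1 v3
    rw [him] at v2 v3
    have M1 := le_max_left (S : ℝ) (t - s)
    have M2 := le_max_right (S : ℝ) (t - s)
    have M3 : max (S : ℝ) (t - s) ≤ S ∨ max (S : ℝ) (t - s) ≤ t - s := le_max_iff.mp le_rfl
    rcases lt_or_ge (((cx x').re - t) * ((cx x').re - s) + (cx x').im ^ 2) 0 with hA | hA
    · -- close
      obtain ⟨b0, b1, -, -, b4⟩ := om_basic hz hst
      have b5 := b4 hA
      rw [hre, him] at hA
      have h6 : (x'.2 : ℝ) ≤ l := by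
        by_contra hcon
        push Not at hcon
        have e5 : ((x'.1 : ℝ) - s) + (t - x'.1) = l := by linarith
        nlinarith [sq_nonneg ((x'.1 : ℝ) - s - (t - x'.1))]
      have e6 : (x'.2 : ℝ) * min (l : ℝ) S / (S : ℝ) ^ 2 = 1 := by
        rw [h3, min_eq_right h6]
        field_simp
      rw [e6]
      unfold om
      have p0 := Real.pi_pos
      refine ⟨by norm_num, by positivity, one_pos, ?_, ?_⟩
      · rw [mul_one, div_le_iff₀ p0]
        linarith
      · rw [← mul_div_assoc, le_div_iff₀ p0]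
        linarith
    · have hA' := hA
      rw [hre, him] at hA'
      rw [hts] at M1 M2 M3
      rcases le_total ((x'.1 : ℝ) - s) (t - x'.1) with hn | hn
      · have h7 : (x'.1 : ℝ) - s ≤ x'.2 := by
          by_contra hcon
          push Not at hcon
          nlinarith
        have key := om_est hz hst (S := S) (by linarith) (n1 := ‖cx x' - s‖) (n2 := ‖cx x' - t‖)
          rfl hA ?_ ?_ ?_ ?_
        · rw [hts, him] at key
          exact key
        · linarith
        · linarith
        · rw [hts]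
          generalize max (S : ℝ) (l : ℝ) = M at *
          rcases M3 with h | h <;> linarith
        · rw [hts]
          linarith
      · have h7 : t - (x'.1 : ℝ) ≤ x'.2 := by
          by_contra hcon
          push Not at hcon
          nlinarith
        have key := om_est hz hst (S := S) (by linarith) (n1 := ‖cx x' - t‖) (n2 := ‖cx x' - s‖)
          (mul_comm _ _) hA ?_ ?_ ?_ ?_
        · rw [hts, him] at key
          exact key
        · linarith
        · linarith
        · rw [hts]
          generalize max (S : ℝ) (l : ℝ) = M at *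
          rcases M3 with h | h <;> linarith
        · rw [hts]
          linarith
  · -- right
    have h1 := hm (p + l - 1, 1) (mem_Iv.mpr ⟨rfl, by show p ≤ p + (l : ℤ) - 1; omega,
      by show p + (l : ℤ) - 1 < p + (l : ℤ); omega⟩)
    have h2 : (S : ℤ) = max (x'.1 - (p + l - 1)) x'.2 := by
      unfold sd at haj h1
      simp only at haj h1
      omega
    have h3 : (S : ℝ) = max ((x'.1 : ℝ) - (p + l - 1)) x'.2 := by
      exact_mod_cast congrArg (Int.cast (R := ℝ)) h2
    have h4 : (1 : ℝ) ≤ (x'.1 : ℝ) - (p + l - 1) := by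
      have : (1 : ℤ) ≤ x'.1 - (p + l - 1) := by omega
      exact_mod_cast this
    have S1 : (x'.1 : ℝ) - (p + l - 1) ≤ S := by rw [h3]; exact le_max_left _ _
    have S2 : (x'.2 : ℝ) ≤ S := by rw [h3]; exact le_max_right _ _
    have S3 : (S : ℝ) ≤ (x'.1 : ℝ) - (p + l - 1) ∨ (S : ℝ) ≤ x'.2 := by
      rw [h3]
      exact le_max_iff.mp le_rfl
    have a1 : |(cx x').re - s| = (x'.1 : ℝ) - (p + l - 1) + l - 1 / 2 := by
      rw [hre, hs, abs_of_pos (by linarith)]
      ring
    have a2 : |(cx x').re - t| = (x'.1 : ℝ) - (p + l - 1) - 1 / 2 := by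
      rw [hre, ht, abs_of_pos (by linarith)]
      ring
    rw [a1] at u1 u3
    rw [him] at u2 u3
    rw [a2] at v1 v3
    rw [him] at v2 v3
    have M1 := le_max_left (S : ℝ) (t - s)
    have M2 := le_max_right (S : ℝ) (t - s)
    have M3 : max (S : ℝ) (t - s) ≤ S ∨ max (S : ℝ) (t - s) ≤ t - s := le_max_iff.mp le_rfl
    rw [hts] at M1 M2 M3
    have key := om_est hz hst (S := S) (by linarith) (n1 := ‖cx x' - t‖) (n2 := ‖cx x' - s‖)
      (mul_comm _ _) ?_ ?_ ?_ ?_ ?_
    · rw [hts, him] at key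
      exact key
    · rw [hre, hs, ht]
      nlinarith [sq_nonneg (cx x').im]
    · rcases S3 with h | h <;> linarith
    · linarith
    · rw [hts]
      generalize max (S : ℝ) (l : ℝ) = M at *
      rcases M3 with h | h
      · rcases S3 with h' | h' <;> linarith
      · linarith
    · rw [hts]
      linarith

end H334PI
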