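import Pool.Agent.H334PI.Inf

/-!
The half-plane: the connection of a finite set with a boundary interval, up to constants.
-/

set_option autoImplicit false

namespace H334PI
open Finset H974 Pool.Agent.H160R2.CV H362P TH976
open Pool.Agent.H160R2.CV.Quad Pool.Agent.H389R2.CD

/-- a boundary interval -/
def Iv (p : ℤ) (l : ℕ) : Finset Vtx := (Finset.range l).image (fun k : ℕ => ((p + k, 1) : Vtx))

theorem mem_Iv {p : ℤ} {l : ℕ} {v : Vtx} : v ∈ Iv p l ↔ v.2 = 1 ∧ p ≤ v.1 ∧ v.1 < p + l := by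
  unfold Iv
  rw [Finset.mem_image]
  constructor
  · rintro ⟨k, hk, rfl⟩
    rw [Finset.mem_range] at hk
    refine ⟨rfl, ?_, ?_⟩
    · show p ≤ p + (k : ℤ)
      omega
    · show p + (k : ℤ) < p + l
      omega
  · rintro ⟨h1, h2, h3⟩
    refine ⟨(v.1 - p).toNat, by rw [Finset.mem_range]; omega, ?_⟩
    apply Prod.ext
    · simp only; omega
    · simp only; omega

/-- distance between two sets -/
def Dst (X J : Finset Vtx) (a : ℕ) : Prop := IsLeast {d : ℕ | ∃ u ∈ X, ∃ i ∈ J, d = sd u i} a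

/-- the profile at the boundary -/
noncomputable def bd (n : ℕ) : ℝ := eH ((0 : ℤ), (1 : ℤ)) n

theorem eH_bd {q : Vtx} (hq : q.2 = 1) (n : ℕ) : eH q n = bd n := by
  unfold bd eH
  rw [hq]

theorem mem0 : (((0 : ℤ), (1 : ℤ)) : Vtx) ∈ DH := by
  show (1 : ℤ) ≤ 1
  exact le_rfl

/-- the boundary factor -/
noncomputable def Nf (l n : ℕ) : ℝ := bd n / bd (min l n)

theorem near9 {D : Set Vtx} {e : Vtx → ℕ → ℝ} {k : ℝ} (h : Reg D e k) {v : Vtx} (hv : v ∈ D)
    {n m : ℕ} (hn : 1 ≤ n) (hm : 1 ≤ m) (h1 : n ≤ 9 * m) (h2 : m ≤ 9 * n) :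
    Cmp (k ^ 4) (e v n) (e v m) := by
  rcases Nat.lt_or_ge (3 * m) n with h3 | h3
  · have c1 := h.near2 hv hn (show 1 ≤ 3 * m by omega) (by omega) (by omega)
    have c2 := h.near2 hv (show 1 ≤ 3 * m by omega) hm (by omega) (by omega)
    exact (c1.trans c2).weaken (le_of_eq (by ring))
  · rcases Nat.lt_or_ge (3 * n) m with h4 | h4
    · have c1 := h.near2 hv hn (show 1 ≤ 3 * n by omega) (by omega) (by omega)
      have c2 := h.near2 hv (show 1 ≤ 3 * n by omega) hm (by omega) (by omega)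
      exact (c1.trans c2).weaken (le_of_eq (by ring))
    · refine (h.near2 hv hn hm h3 h4).weaken ?_
      have := h.hk
      calc k * k = k ^ 2 := by ring
        _ ≤ k ^ 4 := pow_le_pow_right₀ this (by norm_num)

theorem addq {c k : ℝ} (g : Good DH eH c) (h : Reg DH eH k) {X : Finset Vtx} {q y : Vtx}
    {a b d : ℕ} (hX : ∀ u ∈ X, u ∈ DH) (hq2 : q.2 = 1) (hqX : q ∉ X) (hy : y ∈ X)
    (hb : Near q X b) (hd : Diam X d) (ha1 : 1 ≤ a) (hab : a ≤ b) (hba : b ≤ 3 * a) :
    Cmp ((1 + c⁻¹) * (k * k * (k * k))) (PD DH (Cn (insert q X)))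
      (bd a * (eH y (max a (max d 1)) / eH y (max d 1)) * PD DH (Cn X)) := by
  have hq : q ∈ DH := by
    show (1 : ℤ) ≤ q.2
    omega
  have t := g.cmp hX hq hqX hy hb hd
  have c1 := h.near2 hq (n := b) (m := a) (by omega) ha1 (by omega) (by omega)
  have c2 := h.near2 (hX y hy) (n := max b (max d 1)) (m := max a (max d 1)) (by omega) (by omega)
    (by omega) (by omega)
  have p1 := h.pos y (hX y hy) (max d 1) (by omega)
  have p2 := g.pos hX ⟨y, hy⟩
  have t2 := t.trans (((c1.mul c2).div (Cmp.refl p1)).mul (Cmp.refl p2))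
  rw [eH_bd hq2] at t2
  refine (t2.congr rfl ?_).weaken (le_of_eq ?_)
  · rw [mul_div_assoc]
  · ring

theorem PD_mono {D : Set Vtx} {A B : Set Edg → Prop} (h : ∀ F, A F → B F) : PD D A ≤ PD D B := by
  unfold PD
  have : MeasureTheory.IsProbabilityMeasure (bondLaw hlf) := by
    unfold bondLaw
    infer_instance
  exact MeasureTheory.measureReal_mono (fun ω hω => h _ hω)

theorem dst_le {X J : Finset Vtx} {a : ℕ} (h : Dst X J a) {u i : Vtx} (hu : u ∈ X) (hi : i ∈ J) :
    a ≤ sd u i := h.2 ⟨u, hu, i, hi, rfl⟩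

theorem T1_lower (hA : ArS) : ∃ K : ℝ, 0 < K ∧ ∀ (p : ℤ) (l : ℕ) (X : Finset Vtx) (y : Vtx)
    (a d : ℕ), 1 ≤ l → (∀ u ∈ X, u ∈ DH) → y ∈ X → Dst X (Iv p l) a → 1 ≤ a → Diam X d →
    Nf l a * (eH y (max a (max d 1)) / eH y (max d 1)) * PD DH (Cn X) ≤
      K * PD DH (W X (Iv p l)) := by
  obtain ⟨c, g⟩ := good_H hA
  obtain ⟨k, h⟩ := reg_H hA
  obtain ⟨c1, hc1, low1⟩ := lowH hA
  have hk := h.hk
  have k0 : 0 < k := by linarith
  have hc := g.1
  have hci : 0 < c⁻¹ := inv_pos.mpr hc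
  set κ : ℝ := (1 + c⁻¹) * (k * k * (k * k)) with hκ
  have κ0 : 0 < κ := by positivity
  refine ⟨κ * k ^ 4 / c1 + κ * (k * k), by positivity, ?_⟩
  intro p l X y a d hl hX hy ha ha1 hd
  obtain ⟨⟨y0, hy0, i0, hi0, hai⟩, -⟩ := id ha
  have hi0' := mem_Iv.mp hi0
  have pW : 0 ≤ PD DH (W X (Iv p l)) := PD_nonneg _ _
  have b1 : 0 < bd (min l a) := h.pos _ mem0 _ (by omega)
  have fin : ∀ (q : Vtx) (b : ℕ), q ∈ Iv p l → Near q X b → b ≤ 3 * a →
      Cmp κ (PD DH (Cn (insert q X)))
        (bd a * (eH y (max a (max d 1)) / eH y (max d 1)) * PD DH (Cn X)) := by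
    intro q b hq hb hb3
    have hqX : q ∉ X := by
      intro hc
      have := dst_le ha hc hq
      rw [sd_self] at this
      omega
    refine addq g h hX (mem_Iv.mp hq).1 hqX hy hb hd ha1 ?_ hb3
    obtain ⟨⟨u, hu, hbu⟩, -⟩ := hb
    rw [hbu, sd_comm]
    exact dst_le ha hu hq
  have e1 : Nf l a * (eH y (max a (max d 1)) / eH y (max d 1)) * PD DH (Cn X) =
      (bd a * (eH y (max a (max d 1)) / eH y (max d 1)) * PD DH (Cn X)) / bd (min l a) := by
    unfold Nf
    ring
  rw [e1, div_le_iff₀ b1]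
  rcases Nat.lt_or_ge (min (l - 1) a) 3 with hR | hR
  · -- short interval or close
    have hn : Near i0 X a := ⟨⟨y0, hy0, by rw [sd_comm]; exact hai⟩, by
      rintro t ⟨u, hu, rfl⟩
      rw [sd_comm]
      exact dst_le ha hu hi0⟩
    have t := fin i0 a hi0 hn (by omega)
    have s1 : PD DH (Cn (insert i0 X)) ≤ PD DH (W X (Iv p l)) := by
      apply PD_mono
      intro F hF
      refine ⟨?_, y, hy, i0, hi0, ?_⟩
      · intro u hu v hv
        exact hF u (Finset.mem_insert_of_mem hu) v (Finset.mem_insert_of_mem hv)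
      · exact hF y (Finset.mem_insert_of_mem hy) i0 (Finset.mem_insert_self _ _)
    have s2 : (1 : ℝ) ≤ (k * k) * bd (min l a) := by
      have := h.near2 mem0 (n := 1) (m := min l a) le_rfl (by omega) (by omega) (by omega)
      have h2 := this.l
      rw [eH_one mem0] at h2
      exact h2
    have t' := t.r
    generalize bd a * (eH y (max a (max d 1)) / eH y (max d 1)) * PD DH (Cn X) = V at *
    generalize PD DH (Cn (insert i0 X)) = Z at *
    generalize PD DH (W X (Iv p l)) = w at *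
    calc V ≤ κ * Z := t'
      _ ≤ κ * w := mul_le_mul_of_nonneg_left s1 κ0.le
      _ = κ * w * 1 := by ring
      _ ≤ κ * w * ((k * k) * bd (min l a)) := mul_le_mul_of_nonneg_left s2 (by positivity)
      _ = (κ * (k * k)) * w * bd (min l a) := by ring
      _ ≤ (κ * k ^ 4 / c1 + κ * (k * k)) * w * bd (min l a) := by
          apply mul_le_mul_of_nonneg_right _ b1.le
          apply mul_le_mul_of_nonneg_right _ pW
          have : 0 < κ * k ^ 4 / c1 := by positivity
          linarith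
  · -- long interval
    obtain ⟨R, hR1, hR2, hR3, hR4⟩ : ∃ R : ℕ, 1 ≤ R ∧ 3 * R ≤ l - 1 ∧ 3 * R ≤ a ∧
        min l a ≤ 9 * R := ⟨min (l - 1) a / 3, by omega, by omega, by omega, by omega⟩
    obtain ⟨q, hq, hq3, hqi⟩ : ∃ q ∈ Iv p l, q.1 + 3 * R < p + l ∧ sd q i0 ≤ 3 * R := by
      obtain ⟨h1, h2, h3⟩ := hi0'
      rcases lt_or_ge (i0.1 + 3 * (R : ℤ)) (p + l) with h4 | h4
      · exact ⟨i0, hi0, h4, by rw [sd_self]; omega⟩
      · refine ⟨(p + l - 1 - 3 * R, 1), mem_Iv.mpr ⟨rfl, ?_, ?_⟩, ?_, ?_⟩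
        · simp only; omega
        · simp only; omega
        · simp only; omega
        · unfold sd
          simp only
          omega
    have hq' := mem_Iv.mp hq
    obtain ⟨b, hb⟩ := exists_near ⟨y, hy⟩ q
    have hb3 : b ≤ 3 * a := by
      have h1 : b ≤ sd q y0 := hb.2 ⟨y0, hy0, rfl⟩
      have h2 := sd_tri q i0 y0
      rw [sd_comm i0 y0] at h2
      omega
    have t := fin q b hq hb hb3
    have s1 := low1 X (Iv p l) q y R hX hq'.1 hR1 hy (fun u hu => hR3.trans (dst_le ha hu hq)) (by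
      intro t ht1 ht2
      rw [mem_Iv]
      refine ⟨rfl, ?_, ?_⟩
      · simp only; omega
      · simp only; omega)
    have s2 := near9 h mem0 (n := R) (m := min l a) hR1 (by omega) (by omega) (by omega)
    rw [eH_bd hq'.1] at s1
    have s2' : bd R ≤ k ^ 4 * bd (min l a) := s2.l
    have t' := t.r
    generalize bd a * (eH y (max a (max d 1)) / eH y (max d 1)) * PD DH (Cn X) = V at *
    generalize PD DH (Cn (insert q X)) = Z at *
    generalize PD DH (W X (Iv p l)) = w at *
    have s3 : Z ≤ bd R * w / c1 := by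
      rw [le_div_iff₀ hc1, mul_comm]
      exact s1
    calc V ≤ κ * Z := t'
      _ ≤ κ * (bd R * w / c1) := mul_le_mul_of_nonneg_left s3 κ0.le
      _ ≤ κ * ((k ^ 4 * bd (min l a)) * w / c1) := by
          apply mul_le_mul_of_nonneg_left _ κ0.le
          apply div_le_div_of_nonneg_right _ hc1.le
          exact mul_le_mul_of_nonneg_right s2' pW
      _ = (κ * k ^ 4 / c1) * w * bd (min l a) := by ring
      _ ≤ (κ * k ^ 4 / c1 + κ * (k * k)) * w * bd (min l a) := by
          apply mul_le_mul_of_nonneg_right _ b1.le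
          apply mul_le_mul_of_nonneg_right _ pW
          have : 0 < κ * (k * k) := by positivity
          linarith

theorem T1_upper (hA : ArS) : ∃ K : ℝ, 0 < K ∧ ∀ (p : ℤ) (l : ℕ) (X : Finset Vtx) (y : Vtx)
    (a d : ℕ), 1 ≤ l → (∀ u ∈ X, u ∈ DH) → y ∈ X → Dst X (Iv p l) a → 1 ≤ a → Diam X d →
    PD DH (W X (Iv p l)) ≤
      K * (Nf l a * (eH y (max a (max d 1)) / eH y (max d 1)) * PD DH (Cn X)) := by
  obtain ⟨c, g⟩ := good_H hA
  obtain ⟨k, h⟩ := reg_H hA
  obtain ⟨c2, hc2, up1⟩ := upH hA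
  obtain ⟨c3, hc3, far1⟩ := farH hA
  have hk := h.hk
  have k0 : 0 < k := by linarith
  have hc := g.1
  have hci : 0 < c⁻¹ := inv_pos.mpr hc
  set κ : ℝ := (1 + c⁻¹) * (k * k * (k * k)) with hκ
  have κ0 : 0 < κ := by positivity
  refine ⟨κ * k / c2 + k ^ 6 + (1 + c⁻¹) * k ^ 10 / c3, by positivity, ?_⟩
  intro p l X y a d hl hX hy ha ha1 hd
  obtain ⟨⟨y0, hy0, i0, hi0, hai⟩, -⟩ := id ha
  have hi0' := mem_Iv.mp hi0
  have pW : 0 ≤ PD DH (W X (Iv p l)) := PD_nonneg _ _
  have pX := g.pos hX ⟨y, hy⟩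
  have b1 : 0 < bd (min l a) := h.pos _ mem0 _ (by omega)
  have b2 : 0 < bd a := h.pos _ mem0 _ (by omega)
  have b3 := h.pos y (hX y hy) (max d 1) (by omega)
  have b4 := h.pos y (hX y hy) (max a (max d 1)) (by omega)
  have q1 : 0 < κ * k / c2 := by positivity
  have q2 : 0 < k ^ 6 := by positivity
  have q3 : 0 < (1 + c⁻¹) * k ^ 10 / c3 := by positivity
  rcases Nat.lt_or_ge a (3 * l) with hl3 | hl3
  · have s1 : 1 ≤ (k * k) * Nf l a := by
      have h1 := h.near2 mem0 (n := min l a) (m := a) (by omega) (by omega) (by omega) (by omega)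
      have h2 : bd (min l a) ≤ (k * k) * bd a := h1.l
      unfold Nf
      rw [← mul_div_assoc, le_div_iff₀ b1, one_mul]
      exact h2
    have n0 : 0 < Nf l a := div_pos b2 b1
    rcases Nat.lt_or_ge a (9 * max d 1) with h9 | h9
    · -- case B
      have s2 : PD DH (W X (Iv p l)) ≤ PD DH (Cn X) := PD_mono (fun F hF => hF.1)
      have s3 : 1 ≤ k ^ 4 * (eH y (max a (max d 1)) / eH y (max d 1)) := by
        have h1 := near9 h (hX y hy) (n := max d 1) (m := max a (max d 1)) (by omega) (by omega)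
          (by omega) (by omega)
        rw [← mul_div_assoc, le_div_iff₀ b3, one_mul]
        exact h1.l
      have r0 : 0 < eH y (max a (max d 1)) / eH y (max d 1) := by positivity
      generalize eH y (max a (max d 1)) / eH y (max d 1) = r at *
      generalize Nf l a = N at *
      generalize PD DH (Cn X) = P0 at *
      generalize PD DH (W X (Iv p l)) = w at *
      calc w ≤ P0 := s2
        _ = 1 * 1 * P0 := by ring
        _ ≤ ((k * k) * N) * (k ^ 4 * r) * P0 := by
            apply mul_le_mul_of_nonneg_right _ pX.le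
            exact mul_le_mul s1 s3 zero_le_one (by positivity)
        _ = k ^ 6 * (N * r * P0) := by ring
        _ ≤ (κ * k / c2 + k ^ 6 + (1 + c⁻¹) * k ^ 10 / c3) * (N * r * P0) := by
            apply mul_le_mul_of_nonneg_right _ (by positivity)
            linarith
    · -- case C
      obtain ⟨R, hR1, hR2, hR3, hR4⟩ : ∃ R : ℕ, 3 ≤ R ∧ 3 * R ≤ a ∧ a ≤ 3 * R + 2 ∧
          3 * max d 1 ≤ R := ⟨a / 3, by omega, by omega, by omega, by omega⟩
      have hyD : (1 : ℤ) ≤ y.2 := hX y hy
      obtain ⟨w, hw1, hw2⟩ : ∃ w : Vtx, w.1 = y.1 + R ∧ w.2 = y.2 := ⟨(y.1 + R, y.2), rfl, rfl⟩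
      have hw : w ∈ DH := by
        show (1 : ℤ) ≤ w.2
        omega
      have hwy : sd w y = R := by
        unfold sd
        omega
      have hbR : ∀ u ∈ X, R ≤ sd w u + d := by
        intro u hu
        have h1 : sd u y ≤ d := hd.2 ⟨u, hu, y, hy, rfl⟩
        have h2 := sd_tri w u y
        omega
      have hwX : w ∉ X := by
        intro hc
        have := hbR w hc
        rw [sd_self] at this
        omega
      obtain ⟨b, hb⟩ := exists_near ⟨y, hy⟩ w
      have hb1 : b ≤ R := by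
        have : b ≤ sd w y := hb.2 ⟨y, hy, rfl⟩
        omega
      have hb2 : R ≤ b + d := by
        obtain ⟨⟨u, hu, hbu⟩, -⟩ := hb
        rw [hbu]
        exact hbR u hu
      have s2 := far1 X (Iv p l) y w R hX (hX y hy) hw (by omega) (by
        intro u hu
        have h1 : sd u y ≤ d := hd.2 ⟨u, hu, y, hy, rfl⟩
        omega) (by omega) (by
        intro i hi
        have := dst_le ha hy hi
        rw [sd_comm]
        omega)
      have t := g.cmp hX hw hwX hy hb hd
      have c4 := near9 h hw (n := b) (m := 4 * R) (by omega) (by omega) (by omega) (by omega)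
      have c5 := near9 h (hX y hy) (n := max b (max d 1)) (m := max a (max d 1)) (by omega)
        (by omega) (by omega) (by omega)
      have b5 := h.pos w hw (4 * R) (by omega)
      have t2 := (t.trans (((c4.mul c5).div (Cmp.refl b3)).mul (Cmp.refl pX))).l
      have s3 : PD DH (W X (Iv p l)) ≤ PD DH (Cn (insert w X)) / (c3 * eH w (4 * R)) := by
        rw [le_div_iff₀ (by positivity)]
        calc PD DH (W X (Iv p l)) * (c3 * eH w (4 * R)) =
            c3 * (eH w (4 * R) * PD DH (W X (Iv p l))) := by ring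
          _ ≤ _ := s2
      generalize eH y (max a (max d 1)) = B at *
      generalize eH y (max d 1) = C at *
      generalize Nf l a = N at *
      generalize PD DH (Cn X) = P0 at *
      generalize PD DH (W X (Iv p l)) = w0 at *
      generalize PD DH (Cn (insert w X)) = Z at *
      generalize eH w (4 * R) = A at *
      calc w0 ≤ Z / (c3 * A) := s3
        _ ≤ ((1 + c⁻¹) * (k ^ 4 * k ^ 4 * 1 * 1) * (A * B / C * P0)) / (c3 * A) := by
            apply div_le_div_of_nonneg_right t2 (by positivity)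
        _ = ((1 + c⁻¹) * k ^ 8 / c3) * (1 * (B / C) * P0) := by
            field_simp
        _ ≤ ((1 + c⁻¹) * k ^ 8 / c3) * (((k * k) * N) * (B / C) * P0) := by
            apply mul_le_mul_of_nonneg_left _ (by positivity)
            apply mul_le_mul_of_nonneg_right _ pX.le
            exact mul_le_mul_of_nonneg_right s1 (by positivity)
        _ = ((1 + c⁻¹) * k ^ 10 / c3) * (N * (B / C) * P0) := by ring
        _ ≤ (κ * k / c2 + k ^ 6 + (1 + c⁻¹) * k ^ 10 / c3) * (N * (B / C) * P0) := by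
            apply mul_le_mul_of_nonneg_right _ (by positivity)
            linarith
  · -- case A
    have hi0X : i0 ∉ X := by
      intro hc
      have := dst_le ha hc hi0
      rw [sd_self] at this
      omega
    have hn : Near i0 X a := ⟨⟨y0, hy0, by rw [sd_comm]; exact hai⟩, by
      rintro t ⟨u, hu, rfl⟩
      rw [sd_comm]
      exact dst_le ha hu hi0⟩
    have hiD : i0 ∈ DH := by
      show (1 : ℤ) ≤ i0.2
      omega
    have t := (addq g h hX hi0'.1 hi0X hy hn hd ha1 le_rfl (by omega)).l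
    have s2 := up1 X (Iv p l) i0 l hiD hl (fun u hu => hl3.trans (dst_le ha hu hi0)) (by
      intro i hi
      have hi' := mem_Iv.mp hi
      refine ⟨?_, ?_⟩
      · show (1 : ℤ) ≤ i.2
        omega
      · unfold sd
        omega)
    have s3 : bd l ≤ k * bd (3 * l) := h.dbl _ mem0 l hl
    have e3 : min l a = l := by omega
    rw [eH_bd hi0'.1] at s2
    have b5 : 0 < bd l := h.pos _ mem0 _ hl
    have b6 : 0 < bd (3 * l) := h.pos _ mem0 _ (by omega)
    have s4 : PD DH (W X (Iv p l)) ≤ PD DH (Cn (insert i0 X)) / (c2 * bd (3 * l)) := by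
      rw [le_div_iff₀ (by positivity)]
      calc PD DH (W X (Iv p l)) * (c2 * bd (3 * l)) =
          c2 * (bd (3 * l) * PD DH (W X (Iv p l))) := by ring
        _ ≤ _ := s2
    unfold Nf
    rw [e3]
    have r0 : 0 < eH y (max a (max d 1)) / eH y (max d 1) := by positivity
    generalize eH y (max a (max d 1)) / eH y (max d 1) = r at *
    generalize PD DH (Cn X) = P0 at *
    generalize PD DH (W X (Iv p l)) = w0 at *
    generalize PD DH (Cn (insert i0 X)) = Z at *
    calc w0 ≤ Z / (c2 * bd (3 * l)) := s4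
      _ ≤ (κ * (bd a * r * P0)) / (c2 * bd (3 * l)) := by
          apply div_le_div_of_nonneg_right t (by positivity)
      _ ≤ (κ * (bd a * r * P0)) / (c2 * (bd l / k)) := by
          apply div_le_div_of_nonneg_left (by positivity) (by positivity)
          apply mul_le_mul_of_nonneg_left _ hc2.le
          rw [div_le_iff₀ k0]
          linarith
      _ = (κ * k / c2) * (bd a / bd l * r * P0) := by
          field_simp
      _ ≤ (κ * k / c2 + k ^ 6 + (1 + c⁻¹) * k ^ 10 / c3) * (bd a / bd l * r * P0) := by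
          apply mul_le_mul_of_nonneg_right _ (by positivity)
          linarith

/-- **the connection of a finite set with an interval** -/
theorem T1 (hA : ArS) : ∃ K : ℝ, 1 ≤ K ∧ ∀ (p : ℤ) (l : ℕ) (X : Finset Vtx) (y : Vtx)
    (a d : ℕ), 1 ≤ l → (∀ u ∈ X, u ∈ DH) → y ∈ X → Dst X (Iv p l) a → 1 ≤ a → Diam X d →
    Cmp K (PD DH (W X (Iv p l)))
      (Nf l a * (eH y (max a (max d 1)) / eH y (max d 1)) * PD DH (Cn X)) := by
  obtain ⟨c, g⟩ := good_H hA
  obtain ⟨k, h⟩ := reg_H hA
  obtain ⟨K1, hK1, h1⟩ := T1_lower hA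
  obtain ⟨K2, hK2, h2⟩ := T1_upper hA
  refine ⟨1 + K1 + K2, by linarith, ?_⟩
  intro p l X y a d hl hX hy ha ha1 hd
  have s1 := h1 p l X y a d hl hX hy ha ha1 hd
  have s2 := h2 p l X y a d hl hX hy ha ha1 hd
  have pX := g.pos hX ⟨y, hy⟩
  have b1 : 0 < bd (min l a) := h.pos _ mem0 _ (by omega)
  have b2 : 0 < bd a := h.pos _ mem0 _ (by omega)
  have b3 := h.pos y (hX y hy) (max d 1) (by omega)
  have b4 := h.pos y (hX y hy) (max a (max d 1)) (by omega)
  have V0 : 0 < Nf l a * (eH y (max a (max d 1)) / eH y (max d 1)) * PD DH (Cn X) := by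
    unfold Nf
    positivity
  generalize Nf l a * (eH y (max a (max d 1)) / eH y (max d 1)) * PD DH (Cn X) = V at *
  have w0 : 0 < PD DH (W X (Iv p l)) := by
    by_contra hc
    push Not at hc
    nlinarith
  generalize PD DH (W X (Iv p l)) = w at *
  refine ⟨by linarith, w0, V0, ?_, ?_⟩
  · nlinarith
  · nlinarith

end H334PI
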