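import Pool.Agent.H334PI.One

/-!
The half-plane: the factor of a boundary interval in terms of pairs of points.
-/

set_option autoImplicit false

namespace H334PI
open Finset H974 Pool.Agent.H160R2.CV H362P TH976
open Pool.Agent.H160R2.CV.Quad Pool.Agent.H389R2.CD

theorem bd_pos {n : ℕ} (hn : 1 ≤ n) : 0 < bd n := by
  unfold bd
  exact EH_pos (by exact_mod_cast hn) (by norm_num)

theorem Nf_pos {l n : ℕ} (hl : 1 ≤ l) (hn : 1 ≤ n) : 0 < Nf l n :=
  div_pos (bd_pos hn) (bd_pos (by omega))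

/-- the factor for one vertex -/
noncomputable def hf (l : ℕ) (u : Vtx) (a : ℕ) : ℝ := Nf l a * eH u a

/-- the factor for a pair -/
noncomputable def pf (l : ℕ) (u v : Vtx) (a b : ℕ) : ℝ :=
  Real.sqrt (hf l u a * hf l v b / (eH u (sd u v) * eH v (sd u v)))

theorem minC {κ k x v : ℝ} (h : Cmp κ x v) (hk : 1 ≤ k) (hv : v ≤ k) :
    Cmp (κ * k) (min 1 x) v := by
  have hκ := h.hk
  have v0 := h.hy
  have x0 := h.hx
  have k0 := h.k0
  refine ⟨Cmp.one_le_mul' hκ hk, lt_min one_pos x0, v0, ?_, ?_⟩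
  · calc min 1 x ≤ x := min_le_right _ _
      _ ≤ κ * v := h.l
      _ = (κ * 1) * v := by ring
      _ ≤ (κ * k) * v := by
          apply mul_le_mul_of_nonneg_right _ v0.le
          exact mul_le_mul_of_nonneg_left hk k0.le
  · rcases le_total 1 x with h1 | h1
    · rw [min_eq_left h1, mul_one]
      calc v ≤ k := hv
        _ = 1 * k := (one_mul k).symm
        _ ≤ κ * k := mul_le_mul_of_nonneg_right hκ (by linarith)
    · rw [min_eq_right h1]
      calc v ≤ κ * x := h.r
        _ = (κ * 1) * x := by ring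
        _ ≤ (κ * k) * x := by
          apply mul_le_mul_of_nonneg_right _ x0.le
          exact mul_le_mul_of_nonneg_left hk k0.le

theorem sqrtC {κ x v : ℝ} (h : Cmp κ x (v ^ 2)) (hv : 0 < v) : Cmp κ (Real.sqrt x) v := by
  have h2 : Cmp κ (Real.sqrt x) (Real.sqrt (v ^ 2)) := by
    rw [Real.sqrt_eq_rpow, Real.sqrt_eq_rpow]
    exact h.rpow (by norm_num) (by norm_num)
  rwa [Real.sqrt_sq hv.le] at h2

theorem Nf_le {k : ℝ} (h : Reg DH eH k) {l a b : ℕ} (hl : 1 ≤ l) (ha : 1 ≤ a) (hab : a ≤ b) :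
    Nf l b ≤ k ^ 2 * Nf l a := by
  have hk := h.hk
  have k0 : 0 < k := by linarith
  unfold Nf
  have b1 := bd_pos ha
  have b2 : 0 < bd (min l a) := bd_pos (by omega)
  have b3 : 0 < bd (min l b) := bd_pos (by omega)
  have b4 : 0 < bd b := bd_pos (by omega)
  rcases le_total l a with h1 | h1
  · have e1 : min l a = l := by omega
    have e2 : min l b = l := by omega
    rw [e1, e2, ← mul_div_assoc]
    apply div_le_div_of_nonneg_right _ (bd_pos hl).le
    have h3 : bd b ≤ k * bd a := h.anti _ mem0 a b ha hab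
    calc bd b ≤ k * bd a := h3
      _ ≤ k ^ 2 * bd a := by
          apply mul_le_mul_of_nonneg_right _ b1.le
          calc k = k ^ 1 := (pow_one k).symm
            _ ≤ k ^ 2 := pow_le_pow_right₀ hk (by norm_num)
  · have e1 : min l a = a := by omega
    rw [e1, div_self b1.ne', mul_one, div_le_iff₀ b3]
    have h3 : bd b ≤ k * bd (min l b) := h.anti _ mem0 _ _ (by omega) (by omega)
    calc bd b ≤ k * bd (min l b) := h3
      _ ≤ k ^ 2 * bd (min l b) := by
          apply mul_le_mul_of_nonneg_right _ b3.le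
          calc k = k ^ 1 := (pow_one k).symm
            _ ≤ k ^ 2 := pow_le_pow_right₀ hk (by norm_num)

theorem Nf_le_k {k : ℝ} (h : Reg DH eH k) {l a : ℕ} (hl : 1 ≤ l) (ha : 1 ≤ a) : Nf l a ≤ k := by
  unfold Nf
  have b2 : 0 < bd (min l a) := bd_pos (by omega)
  rw [div_le_iff₀ b2]
  exact h.anti _ mem0 _ _ (by omega) (by omega)

theorem Nf_near {k : ℝ} (h : Reg DH eH k) {l a b : ℕ} (hl : 1 ≤ l) (ha : 1 ≤ a) (hb : 1 ≤ b)
    (h1 : a ≤ 3 * b) (h2 : b ≤ 3 * a) : Cmp (k ^ 4) (Nf l a) (Nf l b) := by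
  have c1 := h.near2 mem0 ha hb h1 h2
  have c2 := h.near2 mem0 (n := min l a) (m := min l b) (by omega) (by omega) (by omega) (by omega)
  exact (c1.div c2).weaken (le_of_eq (by ring))

theorem pair_main {k : ℝ} (h : Reg DH eH k) {p : ℤ} {l : ℕ} (hl : 1 ≤ l) {u v : Vtx}
    (hu : u ∈ DH) (hv : v ∈ DH) (huv : u ≠ v) {a0 b0 : ℕ} (ha : Dst {u} (Iv p l) a0)
    (hb : Dst {v} (Iv p l) b0) (hle : a0 ≤ b0) :
    Cmp (k ^ 12) (min 1 (pf l u v (max a0 1) (max b0 1)))
      (Nf l (max a0 1) * (eH u (max (max a0 1) (sd u v)) / eH u (sd u v))) := by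
  have hk := h.hk
  have k0 : 0 < k := by linarith
  have m1 := sd_pos huv
  obtain ⟨⟨u', hu', i, hi, hai⟩, -⟩ := id ha
  rw [Finset.mem_singleton] at hu'
  subst hu'
  obtain ⟨⟨v', hv', j, hj, hbj⟩, -⟩ := id hb
  rw [Finset.mem_singleton] at hv'
  subst hv'
  have hi' := mem_Iv.mp hi
  have hj' := mem_Iv.mp hj
  have hbm : b0 ≤ sd u' v' + a0 := by
    have h1 := hb.2 ⟨v', Finset.mem_singleton_self _, i, hi, rfl⟩
    have h2 := sd_tri v' u' i
    rw [sd_comm v' u'] at h2
    omega
  have hmb : sd u' v' ≤ a0 + b0 + l := by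
    have h1 := sd_tri u' i v'
    have h2 := sd_tri i j v'
    rw [sd_comm j v'] at h2
    have h3 : sd i j ≤ l := by
      unfold sd
      omega
    omega
  obtain ⟨a, ha1, haa⟩ : ∃ a : ℕ, a = max a0 1 ∧ 1 ≤ a := ⟨_, rfl, by omega⟩
  obtain ⟨b, hb1, hbb⟩ : ∃ b : ℕ, b = max b0 1 ∧ 1 ≤ b := ⟨_, rfl, by omega⟩
  rw [← ha1, ← hb1]
  have hab : a ≤ b := by omega
  have hba : b ≤ a + sd u' v' := by omega
  have hmb' : sd u' v' ≤ a + b + l := by omega
  have e0 : sd u' i ≤ a := by omega
  have e1 : sd v' j ≤ b := by omega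
  have hiD : i ∈ DH := by
    show (1 : ℤ) ≤ i.2
    omega
  have hjD : j ∈ DH := by
    show (1 : ℤ) ≤ j.2
    omega
  have huv' : sd v' u' = sd u' v' := sd_comm _ _
  generalize hm : sd u' v' = m at *
  clear ha1 hb1
  have Na := Nf_pos hl haa
  have Nb := Nf_pos hl hbb
  have ua := h.pos u' hu a haa
  have vb := h.pos v' hv b hbb
  have um := h.pos u' hu m m1
  have vm := h.pos v' hv m m1
  unfold pf hf
  rw [hm]
  rcases le_or_gt m a with hma | hma
  · -- case 1
    rw [max_eq_left hma]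
    have c1 := Nf_near h hl hbb haa (by omega) (by omega)
    have c2 := h.near2 hv hbb haa (by omega) (by omega)
    have c3 := h.rat' hv hu (r := m) (n := a) (by omega) m1 hma
    have va := h.pos v' hv a haa
    have V0 : 0 < Nf l a * (eH u' a / eH u' m) := by positivity
    have s1 : Cmp (1 * k ^ 4 * (k * k)) ((Nf l a * eH u' a) * (Nf l b * eH v' b) /
        (eH u' m * eH v' m)) ((Nf l a * eH u' a) * (Nf l a * eH v' a) / (eH u' m * eH v' m)) := by
      have t := (((Cmp.refl (show 0 < Nf l a * eH u' a / (eH u' m * eH v' m) by positivity)).mul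
        c1).mul c2)
      exact t.congr (by ring) (by ring)
    have s2 : Cmp (1 * k) ((Nf l a * eH u' a) * (Nf l a * eH v' a) / (eH u' m * eH v' m))
        ((Nf l a * (eH u' a / eH u' m)) ^ 2) := by
      have t := (Cmp.refl (show 0 < Nf l a * Nf l a * (eH u' a / eH u' m) by positivity)).mul c3
      refine t.congr ?_ ?_
      · field_simp
      · field_simp
    have s3 := sqrtC (s1.trans s2) V0
    have hV : Nf l a * (eH u' a / eH u' m) ≤ k * k := by
      apply mul_le_mul (Nf_le_k h hl haa) _ (by positivity) k0.le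
      rw [div_le_iff₀ um]
      exact h.anti _ hu _ _ m1 hma
    refine (minC s3 (Cmp.one_le_mul' hk hk) hV).weaken ?_
    calc 1 * k ^ 4 * (k * k) * (1 * k) * (k * k) = k ^ 9 := by ring
      _ ≤ k ^ 12 := pow_le_pow_right₀ hk (by norm_num)
  · -- case 2
    rw [max_eq_right hma.le, div_self um.ne', mul_one]
    have ba := bd_pos haa
    have bb := bd_pos hbb
    have bm := bd_pos m1
    have c1 : Cmp k (eH u' a / eH u' m) (bd a / bd m) := by
      have t := (h.rat' hu hiD (r := a) (n := m) e0 haa hma.le).inv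
      rw [inv_div, inv_div, eH_bd hi'.1, eH_bd hi'.1] at t
      exact t
    have c2 : Cmp (k ^ 4) (eH v' b / eH v' m) (bd b / bd m) := by
      rcases le_or_gt b m with hbm' | hbm'
      · have t := (h.rat' hv hjD (r := b) (n := m) e1 hbb hbm').inv
        rw [inv_div, inv_div, eH_bd hj'.1, eH_bd hj'.1] at t
        refine t.weaken ?_
        calc k = k ^ 1 := (pow_one k).symm
          _ ≤ k ^ 4 := pow_le_pow_right₀ hk (by norm_num)
      · have t1 := h.near2 hv hbb m1 (by omega) (by omega)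
        have t2 : Cmp (k * k) (bd b) (bd m) := h.near2 mem0 hbb m1 (by omega) (by omega)
        have t3 : Cmp (k * k) (eH v' b / eH v' m) 1 :=
          (t1.div (Cmp.refl vm)).congr rfl (div_self vm.ne').symm |>.weaken (by rw [mul_one])
        have t4 : Cmp (k * k) (bd b / bd m) 1 :=
          (t2.div (Cmp.refl bm)).congr rfl (div_self bm.ne').symm |>.weaken (by rw [mul_one])
        exact (t3.trans t4.symm).weaken (le_of_eq (by ring))
    have s1 : Cmp (k ^ 5) ((Nf l a * eH u' a) * (Nf l b * eH v' b) / (eH u' m * eH v' m))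
        (Nf l a * Nf l b * (bd a / bd m) * (bd b / bd m)) := by
      have t := ((Cmp.refl (mul_pos Na Nb)).mul c1).mul c2
      refine (t.congr ?_ rfl).weaken (le_of_eq (by ring))
      field_simp
    rcases le_or_gt l a with hla | hla
    · -- far
      have t2 : Cmp (k * k) (bd b) (bd m) := h.near2 mem0 hbb m1 (by omega) (by omega)
      have t4 : Cmp (k * k) (bd b / bd m) 1 :=
        (t2.div (Cmp.refl bm)).congr rfl (div_self bm.ne').symm |>.weaken (by rw [mul_one])
      have t5 : Cmp (k ^ 4) (Nf l a * Nf l b * (bd a / bd m) * (bd b / bd m)) ((Nf l a) ^ 2) := by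
        have t6 := ((Cmp.refl (show 0 < Nf l a ^ 2 by positivity)).mul t4).mul t4
        refine (t6.congr ?_ (by ring)).weaken (le_of_eq (by ring))
        unfold Nf
        have e1 : min l a = l := by omega
        have e2 : min l b = l := by omega
        rw [e1, e2]
        have bl := bd_pos hl
        field_simp
      have s3 := sqrtC (s1.trans t5) Na
      refine (minC s3 hk (Nf_le_k h hl haa)).weaken ?_
      calc k ^ 5 * k ^ 4 * k = k ^ 10 := by ring
        _ ≤ k ^ 12 := pow_le_pow_right₀ hk (by norm_num)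
    · -- close to the interval
      have e1 : min l a = a := by omega
      have n1 : Nf l a = 1 := by
        unfold Nf
        rw [e1, div_self ba.ne']
      have q1 : bd m ≤ k ^ 2 * bd b := by
        rcases le_or_gt b m with hbm' | hbm'
        · have : bd m ≤ k * bd b := h.anti _ mem0 _ _ hbb hbm'
          calc bd m ≤ k * bd b := this
            _ ≤ k ^ 2 * bd b := by
              apply mul_le_mul_of_nonneg_right _ bb.le
              calc k = k ^ 1 := (pow_one k).symm
                _ ≤ k ^ 2 := pow_le_pow_right₀ hk (by norm_num)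
        · have t2 : Cmp (k * k) (bd b) (bd m) := h.near2 mem0 hbb m1 (by omega) (by omega)
          calc bd m ≤ k * k * bd b := t2.r
            _ = _ := by ring
      have bl : 0 < bd (min l b) := bd_pos (by omega)
      have q2 : bd (min l b) ≤ k * bd a := h.anti _ mem0 _ _ haa (by omega)
      have P0 := s1.hx
      have q3 : 1 ≤ k ^ 5 * (Nf l a * Nf l b * (bd a / bd m) * (bd b / bd m)) := by
        rw [n1]
        unfold Nf
        have e2 : k ^ 5 * (1 * (bd b / bd (min l b)) * (bd a / bd m) * (bd b / bd m)) =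
          ((k * bd a) * (k ^ 2 * bd b) * (k ^ 2 * bd b)) / (bd (min l b) * bd m * bd m) := by
          field_simp
        rw [e2, one_le_div (by positivity)]
        apply mul_le_mul (mul_le_mul q2 q1 bm.le (by positivity)) q1 bm.le (by positivity)
      have q4 : 1 ≤ k ^ 10 * ((Nf l a * eH u' a) * (Nf l b * eH v' b) / (eH u' m * eH v' m)) := by
        calc (1 : ℝ) ≤ k ^ 5 * (Nf l a * Nf l b * (bd a / bd m) * (bd b / bd m)) := q3
          _ ≤ k ^ 5 * (k ^ 5 * ((Nf l a * eH u' a) * (Nf l b * eH v' b) / (eH u' m * eH v' m))) :=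
            mul_le_mul_of_nonneg_left s1.r (by positivity)
          _ = _ := by ring
      rw [n1]
      rw [n1] at P0 q4
      generalize (1 * eH u' a) * (Nf l b * eH v' b) / (eH u' m * eH v' m) = T at *
      have hs : 0 < Real.sqrt T := Real.sqrt_pos.mpr P0
      have hs1 : 1 ≤ k ^ 10 * Real.sqrt T := by
        have h1 : (1 : ℝ) ≤ Real.sqrt (k ^ 10 * T) := by
          rw [Real.one_le_sqrt]
          exact q4
        rw [Real.sqrt_mul (by positivity)] at h1
        refine h1.trans ?_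
        apply mul_le_mul_of_nonneg_right _ hs.le
        have h2 : (1 : ℝ) ≤ k ^ 10 := one_le_pow₀ hk
        rw [Real.sqrt_le_left (by positivity)]
        nlinarith
      refine ⟨one_le_pow₀ hk, lt_min one_pos hs, one_pos, ?_, ?_⟩
      · calc min 1 (Real.sqrt T) ≤ 1 := min_le_left _ _
          _ ≤ k ^ 12 * 1 := by rw [mul_one]; exact one_le_pow₀ hk
      · rw [mul_min_of_nonneg _ _ (by positivity), mul_one]
        apply le_min (one_le_pow₀ hk)
        refine hs1.trans ?_
        apply mul_le_mul_of_nonneg_right _ hs.le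
        exact pow_le_pow_right₀ hk (by norm_num)

theorem pf_symm (l : ℕ) (u v : Vtx) (a b : ℕ) : pf l u v a b = pf l v u b a := by
  unfold pf
  rw [sd_comm v u, mul_comm (hf l u a), mul_comm (eH u (sd u v))]

/-- distance from a vertex to an interval -/
noncomputable def dI (p : ℤ) (l : ℕ) (u : Vtx) : ℕ :=
  sInf {d : ℕ | ∃ w ∈ ({u} : Finset Vtx), ∃ i ∈ Iv p l, d = sd w i}

theorem dI_spec {p : ℤ} {l : ℕ} (hl : 1 ≤ l) (u : Vtx) : Dst {u} (Iv p l) (dI p l u) := by
  refine ⟨Nat.sInf_mem ⟨sd u (p, 1), u, Finset.mem_singleton_self _, (p, 1),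
    mem_Iv.mpr ⟨rfl, le_rfl, ?_⟩, rfl⟩, fun d hd => Nat.sInf_le hd⟩
  show p < p + (l : ℤ)
  omega

theorem exists_dst {p : ℤ} {l : ℕ} (hl : 1 ≤ l) {X : Finset Vtx} (hX : X.Nonempty) :
    ∃ a, Dst X (Iv p l) a := by
  obtain ⟨u, hu⟩ := hX
  refine ⟨sInf {d : ℕ | ∃ w ∈ X, ∃ i ∈ Iv p l, d = sd w i},
    Nat.sInf_mem ⟨sd u (p, 1), u, hu, (p, 1),
    mem_Iv.mpr ⟨rfl, le_rfl, ?_⟩, rfl⟩, fun d hd => Nat.sInf_le hd⟩
  show p < p + (l : ℤ)
  omega

/-- the factor of the interval for the set `X` -/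
noncomputable def Mf (l : ℕ) (y : Vtx) (a d : ℕ) : ℝ :=
  Nf l (max a 1) * (eH y (max (max a 1) (max d 1)) / eH y (max d 1))

theorem T1' (hA : ArS) : ∃ K : ℝ, 1 ≤ K ∧ ∀ (p : ℤ) (l : ℕ) (X : Finset Vtx) (y : Vtx)
    (a d : ℕ), 1 ≤ l → (∀ u ∈ X, u ∈ DH) → y ∈ X → Dst X (Iv p l) a → Diam X d →
    Cmp K (PD DH (W X (Iv p l))) (Mf l y a d * PD DH (Cn X)) := by
  obtain ⟨K, hK, h⟩ := T1 hA
  obtain ⟨c, g⟩ := good_H hA
  obtain ⟨k, hr⟩ := reg_H hA
  refine ⟨K, hK, ?_⟩
  intro p l X y a d hl hX hy ha hd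
  rcases Nat.eq_zero_or_pos a with h0 | h0
  · subst h0
    obtain ⟨⟨u, hu, i, hi, hui⟩, -⟩ := ha
    have hui' : u = i := by
      unfold sd at hui
      apply Prod.ext <;> omega
    have e1 : PD DH (W X (Iv p l)) = PD DH (Cn X) := by
      apply le_antisymm
      · exact PD_mono (fun F hF => hF.1)
      · refine PD_mono (fun F hF => ⟨hF, u, hu, i, hi, ?_⟩)
        rw [hui']
        exact Reach.refl _ _
    have e2 : Mf l y 0 d = 1 := by
      unfold Mf Nf
      have e3 : max 0 1 = 1 := rfl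
      have e4 : min l 1 = 1 := by omega
      have e5 : max 1 (max d 1) = max d 1 := by omega
      have p1 := hr.pos y (hX y hy) (max d 1) (by omega)
      rw [e3, e4, e5, div_self (bd_pos le_rfl).ne', div_self p1.ne', one_mul]
    rw [e1, e2, one_mul]
    exact (Cmp.refl (g.pos hX ⟨y, hy⟩)).weaken hK
  · have e1 : max a 1 = a := by omega
    unfold Mf
    rw [e1]
    exact h p l X y a d hl hX hy ha h0 hd

/-- The factor of the interval. -/
theorem factorI (hA : ArS) : ∃ K : ℝ, 1 ≤ K ∧ ∀ (p : ℤ) (l : ℕ) (X : Finset Vtx), 1 ≤ l →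
    (∀ u ∈ X, u ∈ DH) → 2 ≤ X.card →
    (∀ u ∈ X, ∀ v ∈ X, u ≠ v → min 1 (pf l u v (max (dI p l u) 1) (max (dI p l v) 1)) *
      PD DH (Cn X) ≤ K * PD DH (W X (Iv p l))) ∧
    ∃ u ∈ X, ∃ v ∈ X, u ≠ v ∧ PD DH (W X (Iv p l)) ≤
      K * (min 1 (pf l u v (max (dI p l u) 1) (max (dI p l v) 1)) * PD DH (Cn X)) := by
  obtain ⟨K0, hK0, T0⟩ := T1' hA
  obtain ⟨c, g⟩ := good_H hA
  obtain ⟨k, h⟩ := reg_H hA
  have hk := h.hk
  have k0 : 0 < k := by linarith
  refine ⟨k ^ 16 * K0, Cmp.one_le_mul' (one_le_pow₀ hk) hK0, ?_⟩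
  intro p l X hl hX h2
  have hne : X.Nonempty := Finset.card_pos.mp (by omega)
  obtain ⟨a0, ha⟩ := exists_dst (p := p) hl hne
  obtain ⟨d, hd⟩ := exists_diam hne
  have d1 : 1 ≤ d := by
    obtain ⟨p, hp, q, hq, hpq⟩ := Finset.one_lt_card.mp (show 1 < X.card by omega)
    have := hd.2 ⟨p, hp, q, hq, rfl⟩
    have := sd_pos hpq
    omega
  have e1 : max d 1 = d := max_eq_left d1
  have T : ∀ y ∈ X, Cmp K0 (PD DH (W X (Iv p l)))
      (Nf l (max a0 1) * (eH y (max (max a0 1) d) / eH y d) * PD DH (Cn X)) := by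
    intro y hy
    have := T0 p l X y a0 d hl hX hy ha hd
    unfold Mf at this
    rwa [e1] at this
  have pX := g.pos hX hne
  have hdI : ∀ u ∈ X, a0 ≤ dI p l u := by
    intro u hu
    obtain ⟨⟨w, hw, i, hi, hwi⟩, -⟩ := dI_spec (p := p) hl u
    rw [Finset.mem_singleton] at hw
    subst hw
    rw [hwi]
    exact dst_le ha hu hi
  constructor
  · have key : ∀ u ∈ X, ∀ v ∈ X, u ≠ v → dI p l u ≤ dI p l v →
        min 1 (pf l u v (max (dI p l u) 1) (max (dI p l v) 1)) * PD DH (Cn X) ≤
          (k ^ 16 * K0) * PD DH (W X (Iv p l)) := by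
      intro u hu v hv huv hle
      have s := (pair_main h (p := p) hl (hX u hu) (hX v hv) huv (dI_spec hl u) (dI_spec hl v)
        hle).l
      have t := (T u hu).r
      have hau := hdI u hu
      have hm : sd u v ≤ d := hd.2 ⟨u, hu, v, hv, rfl⟩
      have m1 := sd_pos huv
      obtain ⟨a, ha'⟩ : ∃ a : ℕ, a = max a0 1 := ⟨_, rfl⟩
      obtain ⟨b, hb'⟩ : ∃ b : ℕ, b = max (dI p l u) 1 := ⟨_, rfl⟩
      rw [← ha'] at t
      rw [← hb'] at s ⊢
      have a1 : 1 ≤ a := by omega
      have hab : a ≤ b := by omega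
      have r1 := Nf_le h hl a1 hab
      have p3 := h.pos u (hX u hu) (sd u v) m1
      have p4 := h.pos u (hX u hu) d d1
      have p5 := h.pos u (hX u hu) (max a d) (by omega)
      have p6 := h.pos u (hX u hu) (max b (sd u v)) (by omega)
      have Na := Nf_pos hl a1
      have Nb := Nf_pos hl (show 1 ≤ b by omega)
      have r2 : eH u (max b (sd u v)) / eH u (sd u v) ≤ k ^ 2 * (eH u (max a d) / eH u d) := by
        rcases le_or_gt a d with h3 | h3
        · rw [max_eq_right h3, div_self p4.ne', mul_one, div_le_iff₀ p3]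
          have := h.anti u (hX u hu) (sd u v) (max b (sd u v)) m1 (by omega)
          nlinarith [mul_pos k0 p3]
        · have h4 : max b (sd u v) = b := by omega
          rw [h4, max_eq_left h3.le]
          have q1 := h.anti u (hX u hu) a b a1 hab
          have q2 := h.anti u (hX u hu) (sd u v) d m1 hm
          rw [← mul_div_assoc, div_le_div_iff₀ p3 p4]
          have p7 := h.pos u (hX u hu) a a1
          calc eH u b * eH u d ≤ (k * eH u a) * (k * eH u (sd u v)) :=
                mul_le_mul q1 q2 p4.le (by positivity)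
            _ = _ := by ring
      have r3 : Nf l b * (eH u (max b (sd u v)) / eH u (sd u v)) ≤
          k ^ 4 * (Nf l a * (eH u (max a d) / eH u d)) := by
        calc Nf l b * (eH u (max b (sd u v)) / eH u (sd u v)) ≤
            (k ^ 2 * Nf l a) * (k ^ 2 * (eH u (max a d) / eH u d)) :=
              mul_le_mul r1 r2 (by positivity) (by positivity)
          _ = _ := by ring
      generalize min 1 (pf l u v b (max (dI p l v) 1)) = Q at *
      generalize PD DH (W X (Iv p l)) = p' at *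
      generalize PD DH (Cn X) = p0 at *
      generalize Nf l b * (eH u (max b (sd u v)) / eH u (sd u v)) = U at *
      generalize Nf l a * (eH u (max a d) / eH u d) = V at *
      calc Q * p0 ≤ (k ^ 12 * (k ^ 4 * V)) * p0 := by
            apply mul_le_mul_of_nonneg_right _ pX.le
            exact s.trans (mul_le_mul_of_nonneg_left r3 (by positivity))
        _ = k ^ 16 * (V * p0) := by ring
        _ ≤ k ^ 16 * (K0 * p') := mul_le_mul_of_nonneg_left t (by positivity)
        _ = _ := by ring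
    intro u hu v hv huv
    rcases le_total (dI p l u) (dI p l v) with hle | hle
    · exact key u hu v hv huv hle
    · have := key v hv u hu (Ne.symm huv) hle
      rwa [pf_symm] at this
  · obtain ⟨⟨u, hu, i, hi, hui⟩, -⟩ := id ha
    obtain ⟨⟨p1, hp, q, hq, hD⟩, hmax⟩ := id hd
    obtain ⟨v, hv, hdv⟩ : ∃ v ∈ X, d ≤ 2 * sd u v := by
      have h1 : d ≤ sd u p1 + sd u q := by
        rw [hD, sd_comm u p1]
        exact sd_tri p1 u q
      rcases Nat.lt_or_ge (sd u p1) (sd u q) with h2 | h2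
      · exact ⟨q, hq, by omega⟩
      · exact ⟨p1, hp, by omega⟩
    have huv : u ≠ v := by
      rintro rfl
      rw [sd_self] at hdv
      omega
    have hmv : sd u v ≤ d := hmax ⟨u, hu, v, hv, rfl⟩
    have hdu : dI p l u = a0 := by
      apply le_antisymm _ (hdI u hu)
      rw [hui]
      exact (dI_spec hl u).2 ⟨u, Finset.mem_singleton_self _, i, hi, rfl⟩
    refine ⟨u, hu, v, hv, huv, ?_⟩
    have m1 := sd_pos huv
    have s := (pair_main h (p := p) hl (hX u hu) (hX v hv) huv (dI_spec hl u) (dI_spec hl v)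
      (by rw [hdu]; exact hdI v hv)).symm
    have t := T u hu
    rw [hdu] at s ⊢
    have c1 := h.near2 (hX u hu) (n := d) (m := sd u v) d1 m1 (by omega) (by omega)
    have c2 := h.near2 (hX u hu) (n := max (max a0 1) d) (m := max (max a0 1) (sd u v)) (by omega)
      (by omega) (by omega) (by omega)
    have Na := Nf_pos hl (show 1 ≤ max a0 1 by omega)
    have c3 := ((Cmp.refl Na).mul (c2.div c1)).mul (Cmp.refl pX)
    have c4 := (t.trans c3).trans (s.mul (Cmp.refl pX))
    refine c4.l.trans ?_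
    apply mul_le_mul_of_nonneg_right _ c4.hy.le
    have : K0 * (1 * (k * k * (k * k)) * 1) * (k ^ 12 * 1) = k ^ 16 * K0 := by ring
    rw [this]

end H334PI
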